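import Mathlib

/-!
Gaussian binomials at a root of unity, the Lagrange weights at the nodes `ζ^0, …, ζ^k`, and their
absolute values for a nonarchimedean absolute value over `q`.
-/

open Finset

namespace ZU

variable {K : Type*} [Field K]

/-- Gaussian binomial coefficient. -/
def gb (ζ : K) : ℕ → ℕ → K
  | _, 0 => 1
  | 0, _ + 1 => 0
  | n + 1, k + 1 => gb ζ n k + ζ ^ (k + 1) * gb ζ n (k + 1)

/-- `∏_{j=1}^n (1 - ζ^j)`. -/
def pp (ζ : K) (n : ℕ) : K := ∏ j ∈ range n, (1 - ζ ^ (j + 1))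

/-- The weights of the divided difference at `ζ^0, …, ζ^k`. -/
def wt (ζ : K) (k y : ℕ) : K := ∏ j ∈ (range (k + 1)).erase y, (ζ ^ y - ζ ^ j)⁻¹

@[simp] theorem gb_zero (ζ : K) (n : ℕ) : gb ζ n 0 = 1 := by cases n <;> rfl

@[simp] theorem gb_zero_succ (ζ : K) (k : ℕ) : gb ζ 0 (k + 1) = 0 := rfl

theorem gb_succ_succ (ζ : K) (n k : ℕ) :
    gb ζ (n + 1) (k + 1) = gb ζ n k + ζ ^ (k + 1) * gb ζ n (k + 1) := rfl

@[simp] theorem pp_zero (ζ : K) : pp ζ 0 = 1 := by simp [pp]

theorem pp_succ (ζ : K) (n : ℕ) : pp ζ (n + 1) = pp ζ n * (1 - ζ ^ (n + 1)) := by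
  simp [pp, prod_range_succ]

theorem gb_of_lt (ζ : K) : ∀ {n k : ℕ}, n < k → gb ζ n k = 0 := by
  intro n
  induction n with
  | zero => intro k hk; obtain ⟨k, rfl⟩ := Nat.exists_eq_succ_of_ne_zero hk.ne'; rfl
  | succ n ih =>
    intro k hk
    obtain ⟨k, rfl⟩ := Nat.exists_eq_succ_of_ne_zero (Nat.ne_of_gt (lt_of_le_of_lt (Nat.zero_le _) hk))
    rw [Nat.succ_eq_add_one, gb_succ_succ, ih (by omega), ih (by omega)]
    simp

theorem gb_mul (ζ : K) (n : ℕ) : ∀ k ≤ n, gb ζ n k * pp ζ k * pp ζ (n - k) = pp ζ n := by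
  induction n with
  | zero => intro k hk; obtain rfl : k = 0 := by omega
            simp
  | succ n ih =>
    intro k hk
    rcases Nat.eq_zero_or_pos k with rfl | hk0
    · simp
    obtain ⟨k, rfl⟩ := Nat.exists_eq_succ_of_ne_zero hk0.ne'
    rw [Nat.succ_eq_add_one] at hk ⊢
    rw [gb_succ_succ]
    have h1 := ih k (by omega)
    rcases Nat.lt_or_ge k n with h | h
    · have h2 := ih (k + 1) (by omega)
      have e1 : n + 1 - (k + 1) = n - (k + 1) + 1 := by omega
      have e2 : n - k = n - (k + 1) + 1 := by omega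
      rw [e2] at h1
      rw [pp_succ] at h1
      rw [e1, pp_succ ζ (n - (k + 1)), pp_succ ζ n, pp_succ ζ k]
      rw [pp_succ] at h2
      have e3 : ζ ^ (k + 1) * ζ ^ (n - (k + 1) + 1) = ζ ^ (n + 1) := by
        rw [← pow_add]; congr 1; omega
      linear_combination (1 - ζ ^ (k + 1)) * h1 + ζ ^ (k + 1) * (1 - ζ ^ (n - (k + 1) + 1)) * h2
        - pp ζ n * e3
    · obtain rfl : k = n := by omega
      rw [gb_of_lt ζ (show k < k + 1 by omega)]
      simp only [Nat.sub_self, pp_zero, mul_one, mul_zero, add_zero] at h1 ⊢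
      rw [pp_succ, ← mul_assoc, h1]

theorem wt_succ {ζ : K} {k y : ℕ} (hy : y < k + 1) (hne : ζ ^ y - ζ ^ (k + 1) ≠ 0) :
    wt ζ (k + 1) y * (ζ ^ y - ζ ^ (k + 1)) = wt ζ k y := by
  unfold wt
  rw [range_add_one (n := k + 1), erase_insert_of_ne (by omega), prod_insert (by simp)]
  field_simp

/-- The weights have sum zero. -/
theorem sum_wt {ζ : K} {k : ℕ} (hk : 0 < k)
    (hinj : Set.InjOn (fun j : ℕ => ζ ^ j) (range (k + 1) : Finset ℕ)) :
    ∑ y ∈ range (k + 1), wt ζ k y = 0 := by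
  classical
  have h := Lagrange.sum_basis (F := K) hinj ⟨0, by simp⟩
  have h2 := congrArg (fun P => Polynomial.coeff P k) h
  simp only [Polynomial.finsetSum_coeff] at h2
  rw [Polynomial.coeff_one, if_neg hk.ne'] at h2
  rw [← h2]
  refine sum_congr rfl fun y hy => ?_
  rw [Lagrange.basis]
  have hcard : ((range (k + 1)).erase y).card = k := by
    rw [card_erase_of_mem hy, card_range]; rfl
  have := Polynomial.coeff_prod_of_natDegree_le (R := K) ((range (k + 1)).erase y)
    (fun j => Lagrange.basisDivisor (ζ ^ y) (ζ ^ j)) 1 (by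
      intro j hj
      by_cases hne : ζ ^ y = ζ ^ j
      · rw [hne, Lagrange.basisDivisor_self]; simp
      · exact (Lagrange.natDegree_basisDivisor_of_ne hne).le)
  rw [hcard, mul_one] at this
  rw [this, wt]
  refine prod_congr rfl fun j hj => ?_
  rw [Lagrange.basisDivisor, Polynomial.coeff_C_mul, Polynomial.coeff_sub, Polynomial.coeff_X_one,
    Polynomial.coeff_C]
  simp

/-- Gaussian binomials as divided differences. -/
theorem gb_eq_sum {ζ : K} (n : ℕ) : ∀ {k : ℕ},
    Set.InjOn (fun j : ℕ => ζ ^ j) (range (k + 1) : Finset ℕ) →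
    gb ζ n k = ∑ y ∈ range (k + 1), wt ζ k y * ζ ^ (y * n) := by
  induction n with
  | zero =>
    intro k hinj
    rcases Nat.eq_zero_or_pos k with rfl | hk
    · simp [wt]
    · obtain ⟨k, rfl⟩ := Nat.exists_eq_succ_of_ne_zero hk.ne'
      rw [Nat.succ_eq_add_one] at hinj ⊢
      simp only [gb_zero_succ, Nat.mul_zero, pow_zero, mul_one]
      exact (sum_wt hk hinj).symm
  | succ n ih =>
    intro k hinj
    rcases Nat.eq_zero_or_pos k with rfl | hk
    · simp [wt]
    · obtain ⟨k, rfl⟩ := Nat.exists_eq_succ_of_ne_zero hk.ne'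
      rw [Nat.succ_eq_add_one] at hinj ⊢
      have hsub : Set.InjOn (fun j : ℕ => ζ ^ j) (range (k + 1) : Finset ℕ) :=
        hinj.mono (by intro x hx; simp at hx ⊢; omega)
      rw [gb_succ_succ, ih hsub, ih hinj]
      rw [mul_sum, sum_range_succ _ (k + 1), sum_range_succ _ (k + 1)]
      rw [← add_assoc, ← sum_add_distrib]
      congr 1
      · refine sum_congr rfl fun y hy => ?_
        have hne : ζ ^ y - ζ ^ (k + 1) ≠ 0 := by
          intro h0
          have := hinj (by simp at hy ⊢; omega) (by simp) (sub_eq_zero.mp h0)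
          simp at hy; omega
        rw [← wt_succ (by simpa using hy) hne, Nat.mul_succ, pow_add]
        ring
      · rw [show (k + 1) * (n + 1) = (k + 1) * n + (k + 1) by ring, pow_add]
        ring

end ZU
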