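import Pool.Agent.Lib.MP_d0f9e0_co.U.Gb

/-!
Absolute values of Gaussian binomials and of the Lagrange weights at a root of unity of order `q^(n+1)`
for a nonarchimedean absolute value over `q`.
-/

open Finset

namespace ZU

variable {K : Type*} [Field K] {v : AbsoluteValue K ℝ}

theorem sum_le (hv : IsNonarchimedean v) {ι : Type*} (s : Finset ι) (f : ι → K) {B : ℝ}
    (hB : 0 ≤ B) (h : ∀ i ∈ s, v (f i) ≤ B) : v (∑ i ∈ s, f i) ≤ B := by
  classical
  induction s using Finset.induction_on with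
  | empty => simpa using hB
  | insert a s ha ih =>
    rw [sum_insert ha]
    exact (hv _ _).trans (max_le (h _ (mem_insert_self _ _))
      (ih fun i hi => h i (mem_insert_of_mem hi)))

theorem sum_lt (hv : IsNonarchimedean v) {ι : Type*} (s : Finset ι) (f : ι → K) {B : ℝ}
    (hB : 0 < B) (h : ∀ i ∈ s, v (f i) < B) : v (∑ i ∈ s, f i) < B := by
  classical
  induction s using Finset.induction_on with
  | empty => simpa using hB
  | insert a s ha ih =>
    rw [sum_insert ha]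
    exact (hv _ _).trans_lt (max_lt (h _ (mem_insert_self _ _))
      (ih fun i hi => h i (mem_insert_of_mem hi)))

theorem sub_le (hv : IsNonarchimedean v) (a b : K) : v (a - b) ≤ max (v a) (v b) := by
  rw [sub_eq_add_neg]
  refine (hv _ _).trans ?_
  rw [v.map_neg]

theorem sub_lt' (hv : IsNonarchimedean v) {a b : K} {B : ℝ} (ha : v a < B) (hb : v b < B) :
    v (a - b) < B := (sub_le hv a b).trans_lt (max_lt ha hb)

theorem add_lt' (hv : IsNonarchimedean v) {a b : K} {B : ℝ} (ha : v a < B) (hb : v b < B) :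
    v (a + b) < B := (hv a b).trans_lt (max_lt ha hb)

theorem nat_le (hv : IsNonarchimedean v) (n : ℕ) : v (n : K) ≤ 1 :=
  IsNonarchimedean.apply_natCast_le_one (R := ℝ) hv

theorem int_le (hv : IsNonarchimedean v) (n : ℤ) : v (n : K) ≤ 1 := by
  obtain ⟨n, rfl | rfl⟩ := Int.eq_nat_or_neg n
  · simpa using nat_le hv n
  · simpa using nat_le hv n

/-- An integer divisible by `q` has small absolute value. -/
theorem dvd_lt (hv : IsNonarchimedean v) {q : ℕ} (hq : v (q : K) < 1) {a : ℤ} (h : (q : ℤ) ∣ a) :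
    v (a : K) < 1 := by
  obtain ⟨b, rfl⟩ := h
  push_cast
  rw [v.map_mul]
  have h1 := int_le hv (K := K) b
  have h2 : 0 ≤ v (q : K) := v.nonneg _
  calc v (q : K) * v (b : K) ≤ v (q : K) * 1 := mul_le_mul_of_nonneg_left h1 h2
    _ < 1 := by simpa using hq

/-- An integer prime to `q` has absolute value `1`. -/
theorem ndvd_eq (hv : IsNonarchimedean v) {q : ℕ} (hp : q.Prime) (hq : v (q : K) < 1) {a : ℤ}
    (h : ¬ (q : ℤ) ∣ a) : v (a : K) = 1 := by
  have hcop : IsCoprime a (q : ℤ) := by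
    rw [isCoprime_comm]
    exact (Nat.prime_iff_prime_int.mp hp).coprime_iff_not_dvd.mpr h
  obtain ⟨x, y, hxy⟩ := hcop
  refine le_antisymm (int_le hv a) ?_
  by_contra! hlt
  have h1 : v ((x : K) * a + y * q) < 1 := by
    refine add_lt' hv ?_ ?_
    · rw [v.map_mul]
      calc v (x : K) * v (a : K) ≤ 1 * v (a : K) :=
            mul_le_mul_of_nonneg_right (int_le hv x) (v.nonneg _)
        _ < 1 := by simpa using hlt
    · rw [v.map_mul]
      calc v (y : K) * v (q : K) ≤ 1 * v (q : K) :=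
            mul_le_mul_of_nonneg_right (int_le hv y) (v.nonneg _)
        _ < 1 := by simpa using hq
  have h2 : ((x : K) * a + y * q) = 1 := by
    have := congrArg (Int.cast (R := K)) hxy
    push_cast at this
    exact this
  rw [h2, v.map_one] at h1
  exact lt_irrefl _ h1

/-- The ring of integers of `v`. -/
def oo (v : AbsoluteValue K ℝ) (hv : IsNonarchimedean v) : Subring K where
  carrier := {x | v x ≤ 1}
  mul_mem' {a b} ha hb := by
    simp only [Set.mem_ofPred_eq] at *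
    rw [v.map_mul]
    exact mul_le_one₀ ha (v.nonneg _) hb
  one_mem' := by simp
  add_mem' {a b} ha hb := (hv a b).trans (max_le ha hb)
  zero_mem' := by simp
  neg_mem' {a} ha := by simpa using ha

theorem mem_oo (hv : IsNonarchimedean v) {x : K} : x ∈ oo v hv ↔ v x ≤ 1 := Iff.rfl

/-- `(x + y)^(q^n) = x^(q^n) + y^(q^n)` modulo the maximal ideal. -/
theorem pow_add_lt (hv : IsNonarchimedean v) {q : ℕ} (hp : q.Prime) (hq : v (q : K) < 1) {x y : K}
    (hx : v x ≤ 1) (hy : v y ≤ 1) (n : ℕ) :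
    v ((x + y) ^ q ^ n - (x ^ q ^ n + y ^ q ^ n)) < 1 := by
  obtain ⟨r, hr⟩ := exists_add_pow_prime_pow_eq (R := oo v hv) hp ⟨x, hx⟩ ⟨y, hy⟩ n
  have h := congrArg (Subtype.val) hr
  push_cast at h
  rw [h, add_sub_cancel_left]
  have hr1 : v (x * y * (r : K)) ≤ 1 := by
    rw [v.map_mul, v.map_mul]
    exact mul_le_one₀ (mul_le_one₀ hx (v.nonneg _) hy) (v.nonneg _) r.2
  rw [show (q : K) * x * y * r = q * (x * y * r) by ring, v.map_mul]
  calc v (q : K) * v (x * y * (r : K)) ≤ v (q : K) * 1 := mul_le_mul_of_nonneg_left hr1 (v.nonneg _)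
    _ < 1 := by simpa using hq

/-- Roots of unity have absolute value `1`. -/
theorem v_root {x : K} {N : ℕ} (hN : N ≠ 0) (hx : x ^ N = 1) : v x = 1 := by
  have h := congrArg v hx
  rw [v.map_pow, v.map_one] at h
  exact (pow_eq_one_iff_of_nonneg (v.nonneg _) hN).mp h

/-- `x^(q^n) = 1` modulo the maximal ideal implies `x = 1` modulo the maximal ideal. -/
theorem sub_one_lt (hv : IsNonarchimedean v) {q : ℕ} (hp : q.Prime) (hq : v (q : K) < 1) {x : K}
    {n : ℕ} (hx1 : v x ≤ 1) (hx : v (x ^ q ^ n - 1) < 1) : v (x - 1) < 1 := by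
  have h1 := pow_add_lt hv hp hq (x := x - 1) (y := 1) ((sub_le hv _ _).trans (by simp [hx1]))
    (by simp) n
  rw [sub_add_cancel, one_pow] at h1
  have h2 : v ((x - 1) ^ q ^ n) < 1 := by
    have : (x - 1) ^ q ^ n = (x ^ q ^ n - 1) - (x ^ q ^ n - ((x - 1) ^ q ^ n + 1)) := by ring
    rw [this]
    exact sub_lt' hv hx h1
  rw [v.map_pow] at h2
  by_contra! h3
  exact absurd h2 (not_lt.mpr (one_le_pow₀ h3))

section root

variable {ζ : K} {N : ℕ}

theorem v_zeta (hN : N ≠ 0) (hζ : ζ ^ N = 1) (j : ℕ) : v (ζ ^ j) = 1 := by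
  rw [v.map_pow, v_root hN hζ, one_pow]

theorem v_one_sub_lt (hv : IsNonarchimedean v) {q : ℕ} (hp : q.Prime) (hq : v (q : K) < 1) {n : ℕ}
    (hζ : ζ ^ q ^ n = 1) (j : ℕ) : v (1 - ζ ^ j) < 1 := by
  rw [← v.map_neg, neg_sub]
  refine sub_one_lt hv hp hq (n := n) (v_zeta (pow_ne_zero _ hp.ne_zero) hζ j).le ?_
  rw [← pow_mul, mul_comm j, pow_mul, hζ]
  simp

theorem v_gb_le (hv : IsNonarchimedean v) (hN : N ≠ 0) (hζ : ζ ^ N = 1) (n : ℕ) :
    ∀ k, v (gb ζ n k) ≤ 1 := by
  induction n with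
  | zero => intro k; cases k <;> simp
  | succ n ih =>
    intro k
    cases k with
    | zero => simp
    | succ k =>
      rw [gb_succ_succ]
      refine (hv _ _).trans (max_le (ih k) ?_)
      rw [v.map_mul, v_zeta hN hζ, one_mul]
      exact ih (k + 1)

theorem v_gb_sub (hv : IsNonarchimedean v) (hN : N ≠ 0) (hζ : ζ ^ N = 1)
    (h1 : ∀ j, v (1 - ζ ^ j) < 1) (n : ℕ) : ∀ k, v (gb ζ n k - (n.choose k : K)) < 1 := by
  induction n with
  | zero => intro k; cases k <;> simp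
  | succ n ih =>
    intro k
    cases k with
    | zero => simp
    | succ k =>
      rw [gb_succ_succ, Nat.choose_succ_succ]
      have e : gb ζ n k + ζ ^ (k + 1) * gb ζ n (k + 1) -
          ((n.choose k + n.choose (k + 1) : ℕ) : K) =
          (gb ζ n k - (n.choose k : K)) + (gb ζ n (k + 1) - (n.choose (k + 1) : K)) -
            (1 - ζ ^ (k + 1)) * gb ζ n (k + 1) := by push_cast; ring
      rw [Nat.succ_eq_add_one, e]
      refine sub_lt' hv (add_lt' hv (ih k) (ih (k + 1))) ?_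
      rw [v.map_mul]
      calc v (1 - ζ ^ (k + 1)) * v (gb ζ n (k + 1)) ≤ v (1 - ζ ^ (k + 1)) * 1 :=
            mul_le_mul_of_nonneg_left (v_gb_le hv hN hζ n _) (v.nonneg _)
        _ < 1 := by simpa using h1 (k + 1)

theorem v_pp_succ (k : ℕ) : v (pp ζ (k + 1)) = v (pp ζ k) * v (1 - ζ ^ (k + 1)) := by
  rw [pp_succ, v.map_mul]

theorem v_pp_pos (hζ : IsPrimitiveRoot ζ N) {k : ℕ} (hk : k < N) : 0 < v (pp ζ k) := by
  induction k with
  | zero => simp
  | succ k ih =>
    rw [v_pp_succ]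
    refine mul_pos (ih (by omega)) ?_
    rw [v.pos_iff, sub_ne_zero, ne_comm]
    exact hζ.pow_ne_one_of_pos_of_lt (by omega) hk

theorem v_pp_anti (hζ : IsPrimitiveRoot ζ N) (h1 : ∀ j, v (1 - ζ ^ j) < 1) {k l : ℕ}
    (hkl : k < l) (hl : l < N) : v (pp ζ l) < v (pp ζ k) := by
  induction l with
  | zero => omega
  | succ l ih =>
    have h2 : v (pp ζ (l + 1)) < v (pp ζ l) := by
      rw [v_pp_succ]
      have := v_pp_pos (v := v) hζ (k := l) (by omega)
      nlinarith [h1 (l + 1)]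
    rcases Nat.lt_or_ge k l with h | h
    · exact h2.trans (ih h (by omega))
    · obtain rfl : k = l := by omega
      exact h2

theorem v_pp_anti' (hζ : IsPrimitiveRoot ζ N) (h1 : ∀ j, v (1 - ζ ^ j) < 1) {k l : ℕ}
    (hkl : k ≤ l) (hl : l < N) : v (pp ζ l) ≤ v (pp ζ k) := by
  rcases hkl.lt_or_eq with h | rfl
  · exact (v_pp_anti hζ h1 h hl).le
  · exact le_rfl

theorem v_zeta_sub (hN : N ≠ 0) (hζ : ζ ^ N = 1) {i j : ℕ} (hij : i < j) :
    v (ζ ^ i - ζ ^ j) = v (1 - ζ ^ (j - i)) := by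
  have : ζ ^ i - ζ ^ j = ζ ^ i * (1 - ζ ^ (j - i)) := by
    rw [mul_sub, ← pow_add, Nat.add_sub_cancel' hij.le, mul_one]
  rw [this, v.map_mul, v_zeta hN hζ, one_mul]

theorem v_wt_self (hζ : IsPrimitiveRoot ζ N) (y : ℕ) (hy : y < N) :
    v (wt ζ y y) * v (pp ζ y) = 1 := by
  have hN : N ≠ 0 := by omega
  have e : (range (y + 1)).erase y = range y := by
    ext j; simp; omega
  rw [wt, e, pp, map_prod, map_prod, ← prod_range_reflect (fun j => v (1 - ζ ^ (j + 1))) y,
    ← prod_mul_distrib]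
  refine prod_eq_one fun j hj => ?_
  rw [mem_range] at hj
  have h2 : v (ζ ^ y - ζ ^ j) = v (1 - ζ ^ (y - 1 - j + 1)) := by
    rw [← v.map_neg, neg_sub, v_zeta_sub hN hζ.pow_eq_one hj]
    congr 3; omega
  rw [map_inv₀, h2]
  refine inv_mul_cancel₀ (ne_of_gt ?_)
  rw [v.pos_iff, sub_ne_zero, ne_comm]
  exact hζ.pow_ne_one_of_pos_of_lt (by omega) (by omega)

theorem v_wt_mul (hζ : IsPrimitiveRoot ζ N) {k : ℕ} (hk : k < N) {y : ℕ} (hy : y ≤ k) :
    v (wt ζ k y) * v (pp ζ y) * v (pp ζ (k - y)) = 1 := by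
  induction k with
  | zero => obtain rfl : y = 0 := by omega
            simp [wt]
  | succ k ih =>
    have hN : N ≠ 0 := by omega
    rcases Nat.lt_or_ge y (k + 1) with h | h
    · have h1 := ih (by omega) (by omega)
      have hne : ζ ^ y - ζ ^ (k + 1) ≠ 0 := by
        intro h0
        have := hζ.pow_inj (by omega) hk (sub_eq_zero.mp h0)
        omega
      rw [← wt_succ h hne, v.map_mul, v_zeta_sub hN hζ.pow_eq_one h] at h1
      have e : k + 1 - y = (k - y) + 1 := by omega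
      rw [e] at h1 ⊢
      rw [v_pp_succ]
      linarith
    · obtain rfl : y = k + 1 := by omega
      rw [Nat.sub_self, pp_zero, v.map_one, mul_one]
      exact v_wt_self hζ _ hk

theorem v_wt_le (hv : IsNonarchimedean v) (hζ : IsPrimitiveRoot ζ N) {k : ℕ} (hk : k < N) {y : ℕ}
    (hy : y ≤ k) : v (wt ζ k y) * v (pp ζ k) ≤ 1 := by
  have hN : N ≠ 0 := by omega
  have h1 := v_wt_mul (v := v) hζ hk hy
  have h2 := congrArg v (gb_mul ζ k y hy)
  rw [v.map_mul, v.map_mul] at h2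
  have h3 := v_gb_le hv hN hζ.pow_eq_one k y
  have h4 := v_pp_pos (v := v) hζ (k := y) (by omega)
  have h5 := v_pp_pos (v := v) hζ (k := k - y) (by omega)
  have h6 : v (pp ζ k) ≤ v (pp ζ y) * v (pp ζ (k - y)) := by
    rw [← h2, mul_assoc]
    have := mul_pos h4 h5
    nlinarith
  calc v (wt ζ k y) * v (pp ζ k) ≤ v (wt ζ k y) * (v (pp ζ y) * v (pp ζ (k - y))) :=
        mul_le_mul_of_nonneg_left h6 (v.nonneg _)
    _ = 1 := by rw [← mul_assoc]; exact h1

theorem pp_last (hζ : IsPrimitiveRoot ζ (N + 1)) : pp ζ N = (N : K) + 1 :=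
  hζ.prod_one_sub_pow_eq_order

theorem v_pp_mul (hζ : IsPrimitiveRoot ζ N) {k l : ℕ} (hkl : k + l + 1 = N) :
    v (pp ζ k) * v (pp ζ l) = v (N : K) := by
  subst hkl
  have h0 := pp_last hζ
  have h1 : pp ζ (k + l) = pp ζ k * ∏ j ∈ range l, (1 - ζ ^ (k + j + 1)) := by
    rw [pp, prod_range_add]; rfl
  have h2 : v (pp ζ l) = v (∏ j ∈ range l, (1 - ζ ^ (k + j + 1))) := by
    rw [pp, map_prod, map_prod, ← prod_range_reflect (fun j => v (1 - ζ ^ (k + j + 1))) l]
    refine prod_congr rfl fun j hj => ?_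
    rw [mem_range] at hj
    have e : k + (l - 1 - j) + 1 = k + l + 1 - (j + 1) := by omega
    have hN : k + l + 1 ≠ 0 := by omega
    rw [e, ← v_zeta_sub hN hζ.pow_eq_one (show j + 1 < k + l + 1 by omega), hζ.pow_eq_one,
      ← v.map_neg, neg_sub]
  rw [h2, ← v.map_mul, ← h1, h0]
  push_cast
  rfl

end root

end ZU
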