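import Mathlib

/-!
Functions on `{0, …, q-1}` with values in a domain of characteristic `q` with vanishing moments are
polynomials of small degree.
-/

open Finset Polynomial

namespace ZU

variable {R : Type*} [CommRing R] [IsDomain R]

theorem cast_ne_zero {q : ℕ} (hp : q.Prime) (hq : (q : R) = 0) {a : ℤ} (ha : ¬ (q : ℤ) ∣ a) :
    (a : R) ≠ 0 := by
  intro h0
  have hcop : IsCoprime a (q : ℤ) := by
    rw [isCoprime_comm]
    exact (Nat.prime_iff_prime_int.mp hp).coprime_iff_not_dvd.mpr ha
  obtain ⟨x, y, hxy⟩ := hcop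
  have := congrArg (Int.cast (R := R)) hxy
  push_cast at this
  rw [h0, hq, mul_zero, mul_zero, add_zero] at this
  exact zero_ne_one this

theorem cast_inj_lt {q : ℕ} (hp : q.Prime) (hq : (q : R) = 0) {s t : ℕ} (hs : s < q) (ht : t < q)
    (h : (s : R) = t) : s = t := by
  by_contra hne
  refine cast_ne_zero (R := R) hp hq (a := (s : ℤ) - t) ?_ (by push_cast; rw [h, sub_self])
  intro hd
  have := Int.eq_zero_of_abs_lt_dvd hd (by rw [abs_lt]; constructor <;> omega)
  omega

omit [IsDomain R] in
theorem mom_pow {q : ℕ} (φ : ℕ → R) {c : ℕ}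
    (h : ∀ j < c, ∑ t ∈ range q, φ t * (t.choose j : R) = 0) (i : ℕ) :
    ∀ j, i + j < c → ∑ t ∈ range q, φ t * ((t : R) ^ i * (t.choose j : R)) = 0 := by
  induction i with
  | zero => intro j hj; simpa using h j (by omega)
  | succ i ih =>
    intro j hj
    have h1 := ih (j + 1) (by omega)
    have h2 := ih j (by omega)
    have e : ∀ t : ℕ, φ t * ((t : R) ^ (i + 1) * (t.choose j : R)) =
        φ t * ((t : R) ^ i * (t.choose (j + 1) : R)) * (j + 1) +
          φ t * ((t : R) ^ i * (t.choose j : R)) * j := by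
      intro t
      have h3 : (t.choose j : R) * t = (t.choose (j + 1) : R) * (j + 1) + (t.choose j : R) * j := by
        rcases Nat.lt_or_ge t j with h | h
        · rw [Nat.choose_eq_zero_of_lt h, Nat.choose_eq_zero_of_lt (by omega)]
          simp
        · have h1 := Nat.choose_succ_right_eq t j
          have h2 := congrArg (Nat.cast (R := R)) h1
          push_cast [Nat.cast_sub h] at h2
          rw [h2]
          ring
      rw [pow_succ]
      linear_combination (φ t * (t : R) ^ i) * h3
    rw [sum_congr rfl fun t _ => e t, sum_add_distrib, ← sum_mul, ← sum_mul, h1, h2]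
    simp

omit [IsDomain R] in
theorem exists_poly {q : ℕ} (hp : q.Prime) (hq : (q : R) = 0) (φ : ℕ → R) {c : ℕ}
    (h : ∀ j < c, ∑ t ∈ range q, φ t * (t.choose j : R) = 0) :
    ∃ p : R[X], p.natDegree ≤ q - 1 - c ∧ ∀ t < q, p.eval (t : R) = φ t := by
  have hq1 := hp.one_lt
  refine ⟨∑ s ∈ range q, C (φ s) * (1 - (X - C (s : R)) ^ (q - 1)), ?_, ?_⟩
  · rw [natDegree_le_iff_coeff_eq_zero]
    intro k hk
    rw [finsetSum_coeff]
    have h0 : k ≠ 0 := by omega
    have e : ∀ s : ℕ, (C (φ s) * (1 - (X - C (s : R)) ^ (q - 1))).coeff k =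
        -((-1) ^ (q - 1 - k) * ((q - 1).choose k : R)) * (φ s * ((s : R) ^ (q - 1 - k) * (s.choose 0 : R))) := by
      intro s
      rw [coeff_C_mul, coeff_sub, coeff_one, if_neg h0, sub_eq_add_neg X, ← C_neg,
        coeff_X_add_C_pow, neg_pow]
      simp
      ring
    rw [sum_congr rfl fun s _ => e s, ← mul_sum]
    rcases Nat.lt_or_ge (q - 1) k with h1 | h1
    · rw [Nat.choose_eq_zero_of_lt h1]
      simp
    · rw [mom_pow φ h (q - 1 - k) 0 (by omega), mul_zero]
  · intro t ht
    rw [eval_finsetSum, sum_eq_single t]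
    · simp only [eval_mul, eval_C, eval_sub, eval_one, eval_pow, eval_X, sub_self]
      rw [zero_pow (by omega)]
      ring
    · intro s hs hst
      rw [mem_range] at hs
      simp only [eval_mul, eval_C, eval_sub, eval_one, eval_pow, eval_X]
      have h1 : ((t : R) - s) ^ (q - 1) = 1 := by
        have hnd : ¬ (q : ℤ) ∣ (t : ℤ) - s := by
          intro hd
          have := Int.eq_zero_of_abs_lt_dvd hd (by rw [abs_lt]; constructor <;> omega)
          omega
        have hcop : IsCoprime ((t : ℤ) - s) (q : ℤ) := by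
          rw [isCoprime_comm]
          exact (Nat.prime_iff_prime_int.mp hp).coprime_iff_not_dvd.mpr hnd
        have h2 := Int.ModEq.pow_card_sub_one_eq_one hp hcop
        obtain ⟨y, hy⟩ := Int.modEq_iff_dvd.mp h2
        have h3 := congrArg (Int.cast (R := R)) hy
        push_cast at h3
        rw [hq, zero_mul, sub_eq_zero] at h3
        exact h3.symm
      rw [h1, sub_self, mul_zero]
    · intro h0
      exact absurd (mem_range.mpr ht) h0

/-- Two functions with vanishing moments and constant product are constant. -/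
theorem const_of_prod {q : ℕ} (hp : q.Prime) (hq : (q : R) = 0) (φ φ' : ℕ → R) {ω : R}
    (hω : ω ≠ 0) (h : ∀ j < q / 2, ∑ t ∈ range q, φ t * (t.choose j : R) = 0)
    (h' : ∀ j < q / 2, ∑ t ∈ range q, φ' t * (t.choose j : R) = 0)
    (hprod : ∀ t < q, φ t * φ' t = ω) : ∀ t < q, φ t = φ 0 := by
  have hq1 := hp.two_le
  obtain ⟨p, hp1, hp2⟩ := exists_poly hp hq φ h
  obtain ⟨p', hp1', hp2'⟩ := exists_poly hp hq φ' h'
  have h1 : p * p' - C ω = 0 := by
    refine eq_zero_of_natDegree_lt_card_of_eval_eq_zero (p * p' - C ω)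
      (f := fun i : Fin q => ((i : ℕ) : R)) ?_ ?_ ?_
    · intro i j hij
      exact Fin.ext (cast_inj_lt hp hq i.2 j.2 hij)
    · intro i
      rw [eval_sub, eval_mul, eval_C, hp2 _ i.2, hp2' _ i.2, hprod _ i.2, sub_self]
    · rw [Fintype.card_fin, natDegree_sub_C]
      have := natDegree_mul_le (p := p) (q := p')
      omega
  rw [sub_eq_zero] at h1
  have hne : p * p' ≠ 0 := by
    rw [h1]
    exact C_ne_zero.mpr hω
  have h2 := congrArg natDegree h1
  rw [natDegree_mul (left_ne_zero_of_mul hne) (right_ne_zero_of_mul hne), natDegree_C] at h2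
  have h3 : p.natDegree = 0 := by omega
  obtain ⟨r, hr⟩ := natDegree_eq_zero.mp h3
  intro t ht
  rw [← hp2 t ht, ← hp2 0 hp.pos, ← hr]
  simp

end ZU
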