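import Pool.Agent.Lib.MP_d0f9e0_co.U.LeafV
import Pool.Agent.Lib.MP_d0f9e0_co.U.Pol

/-!
The leaf lemma: modulo principal units, a solution of the near group equations over `q` is invariant
under the elements of order `q` of a cyclic Sylow `q`-subgroup.
-/

open Finset

namespace ZU

section res

variable {K : Type*} [Field K] (v : AbsoluteValue K ℝ) (hv : IsNonarchimedean v)

/-- The maximal ideal. -/
def mm : Ideal (oo v hv) where
  carrier := {x | v (x : K) < 1}
  add_mem' {a b} ha hb := (hv (a : K) b).trans_lt (max_lt ha hb)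
  zero_mem' := by simp
  smul_mem' a b hb := by
    rw [Set.mem_ofPred_eq] at hb ⊢
    rw [smul_eq_mul, Subring.coe_mul, v.map_mul]
    calc v (a : K) * v (b : K) ≤ 1 * v (b : K) := mul_le_mul_of_nonneg_right a.2 (v.nonneg _)
      _ < 1 := by simpa using hb

theorem mem_mm (x : oo v hv) : x ∈ mm v hv ↔ v (x : K) < 1 := Iff.rfl

instance : (mm v hv).IsPrime where
  ne_top' := by
    intro h
    have : (1 : oo v hv) ∈ mm v hv := by rw [h]; trivial
    rw [mem_mm] at this
    simp at this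
  mem_or_mem' {x y} h := by
    by_contra! h1
    rw [mem_mm, mem_mm, not_lt, not_lt] at h1
    rw [mem_mm, Subring.coe_mul, v.map_mul] at h
    nlinarith [h1.1, h1.2]

/-- The residue ring. -/
abbrev Rr := oo v hv ⧸ mm v hv

end res

section leaf

variable {G K : Type*} [AddCommGroup G] [Fintype G] [Field K] {v : AbsoluteValue K ℝ}
  {q n m : ℕ} {γ : G}

/-- Vanishing moments when the absolute values are `1`. -/
theorem half_moment (hv : IsNonarchimedean v) (hp : q.Prime) (hq : v (q : K) < 1) (P : Pg G K)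
    (hγ : addOrderOf γ = q ^ (n + 1)) (hG : Fintype.card G = m * q ^ (n + 1)) (hm : ¬ q ∣ m)
    {κ : K} (hκ : v κ ^ 2 = v ((q : K) ^ (n + 1))) {h : G → K} (h1 : ∀ a, v (h a) ≤ 1)
    (h2 : ∀ x, v (P.ft h x) ≤ v κ) (a : G) {j : ℕ} (hj : j < q / 2) :
    v (∑ t ∈ range q, h (a + (q ^ n * t) • γ) * (t.choose j : K)) < 1 := by
  obtain ⟨x₁, hx₁⟩ := P.exists_dual hp hγ
  refine coset_moment hv hp hq P hγ hG hm hx₁ one_pos h1 h2 (Nat.div_le_self _ _) ?_ a hj
  intro k hk
  rw [one_mul]
  have hlt : ∀ j, v (1 - P.b γ x₁ ^ j) < 1 := v_one_sub_lt hv hp hq hx₁.pow_eq_one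
  have h3 : q ^ n * (q / 2) + q ^ n * (q / 2) ≤ q ^ (n + 1) := by
    rw [← mul_add, pow_succ]
    exact Nat.mul_le_mul_left _ (by omega)
  obtain ⟨l, hl⟩ := Nat.exists_eq_add_of_lt (show k + k + 1 < q ^ (n + 1) by omega)
  have h4 := v_pp_mul (v := v) hx₁ (k := k) (l := k + l + 1) (by omega)
  have h5 := v_pp_anti hx₁ hlt (show k < k + l + 1 by omega)
    (show k + l + 1 < q ^ (n + 1) by omega)
  have h6 := v_pp_pos (v := v) hx₁ (k := k) (by omega)
  push_cast at h4
  rw [← hκ] at h4
  have h7 : v κ ^ 2 < v (pp (P.b γ x₁) k) ^ 2 := by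
    rw [← h4, sq]
    exact mul_lt_mul_of_pos_left h5 h6
  exact lt_of_pow_lt_pow_left₀ 2 h6.le h7

/-- The near group equation for one element `p`, up to units which are almost constant along the
elements of order `q`. -/
def Ap (P : Pg G K) (v : AbsoluteValue K ℝ) (c : G → K) (κ : K) (q : ℕ) (p : G) : Prop :=
  ∃ ph : G → K, (∀ a, v (ph a) = 1) ∧ (∀ a z, q • z = 0 → v (ph (a + z) - ph a) < 1) ∧
    ∀ x, v (P.ft (fun a => ph a * c a * c (p - a)) x) =
      v κ * v (c p) * v (c x) * v (c (-p - x))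

theorem prod_shift {M : Type*} [CommGroup M] {q : ℕ} (F : ℕ → M) (h : F q = F 0) :
    ∏ t ∈ range q, F (t + 1) = ∏ t ∈ range q, F t := by
  have h1 := prod_range_succ' F q
  rw [prod_range_succ, h] at h1
  exact (mul_right_cancel h1).symm

/-- **The leaf lemma.** -/
theorem leaf (hv : IsNonarchimedean v) (hp : q.Prime) (hq : v (q : K) < 1) (P : Pg G K)
    (hγ : addOrderOf γ = q ^ (n + 1)) (hG : Fintype.card G = m * q ^ (n + 1)) (hm : ¬ q ∣ m)
    (c : G → K) (hc : ∀ x, x ≠ 0 → c x * c (-x) = 1) (hc0 : v (c 0 ^ 2 - 1) < 1) {κ : K}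
    (hκ : v κ ^ 2 = v ((q : K) ^ (n + 1))) (hA : Ap P v c κ q ((q ^ n) • γ))
    (hA' : Ap P v c κ q (-((q ^ n) • γ))) (x : G) :
    v (c (x + (q ^ n) • γ) / c x - 1) < 1 := by
  classical
  have hqp : q • ((q ^ n) • γ) = 0 := by
    rw [← mul_smul, ← pow_succ', ← hγ, addOrderOf_nsmul_eq_zero]
  have hv0 : v (c 0) = 1 := by
    have h1 : v (c 0 ^ 2) = 1 := by
      have e : c 0 ^ 2 = (c 0 ^ 2 - 1) + 1 := by ring
      rw [e]
      have := IsNonarchimedean.add_eq_right_of_lt (R := ℝ) hv (x := c 0 ^ 2 - 1) (y := 1)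
        (by rw [v.map_one]; exact hc0)
      rw [this, v.map_one]
    rw [v.map_pow] at h1
    exact (pow_eq_one_iff_of_nonneg (v.nonneg _) two_ne_zero).mp h1
  have hcv : ∀ x, v (c x) * v (c (-x)) = 1 := by
    intro x
    by_cases hx : x = 0
    · subst hx
      rw [neg_zero, hv0, one_mul]
    · rw [← v.map_mul, hc x hx, v.map_one]
  have hcne : ∀ x, c x ≠ 0 := by
    intro x h0
    have := hcv x
    rw [h0, v.map_zero, zero_mul] at this
    exact zero_ne_one this
  obtain ⟨ph, hph1, hph2, hph3⟩ := hA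
  obtain ⟨ph', hph1', hph2', hph3'⟩ := hA'
  have hinv : ∀ x, v (c (x + (q ^ n) • γ)) = v (c x) := fun x =>
    leaf_v hv hp hq P hγ hG hm c hcv hκ (fun a => ph a * c a * c ((q ^ n) • γ - a))
      (fun a => by rw [v.map_mul, v.map_mul, hph1, one_mul]) hph3 x
  set p := (q ^ n) • γ with hpdef
  have hinv' : ∀ x, v (c (x - p)) = v (c x) := by
    intro x
    rw [← hinv (x - p), sub_add_cancel]
  have hvp : v (c p) = 1 := by rw [← zero_add p, hinv, hv0]
  have hvp' : v (c (-p)) = 1 := by rw [← zero_sub p, hinv', hv0]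
  have hh1 : ∀ a, v (ph a * c a * c (p - a)) = 1 := by
    intro a
    rw [v.map_mul, v.map_mul, hph1, one_mul, show p - a = -(a - p) by abel, ← hinv' a]
    exact hcv (a - p)
  have hh1' : ∀ a, v (ph' a * c a * c (-p - a)) = 1 := by
    intro a
    rw [v.map_mul, v.map_mul, hph1', one_mul, show -p - a = -(a + p) by abel, ← hinv a]
    exact hcv (a + p)
  have hf1 : ∀ y, v (P.ft (fun a => ph a * c a * c (p - a)) y) ≤ v κ := by
    intro y
    rw [hph3, hvp, mul_one, mul_assoc]
    have : v (c y) * v (c (-p - y)) = 1 := by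
      rw [show -p - y = -(y + p) by abel, ← hinv y]
      exact hcv (y + p)
    rw [this, mul_one]
  have hf1' : ∀ y, v (P.ft (fun a => ph' a * c a * c (-p - a)) y) ≤ v κ := by
    intro y
    rw [hph3', hvp', mul_one, mul_assoc]
    have : v (c y) * v (c (- -p - y)) = 1 := by
      rw [show - -p - y = -(y - p) by abel, ← hinv' y]
      exact hcv (y - p)
    rw [this, mul_one]
  -- the two functions on the coset of `x`
  have ht : ∀ t : ℕ, (q ^ n * t) • γ = t • p := by
    intro t; rw [hpdef, ← mul_smul, mul_comm]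
  have hγ' : addOrderOf (-γ) = q ^ (n + 1) := by rw [addOrderOf_neg]; exact hγ
  have hmom : ∀ j < q / 2, v (∑ t ∈ range q, (ph (x + t • p) * c (x + t • p) * c (p - (x + t • p))) *
      (t.choose j : K)) < 1 := by
    intro j hj
    have := half_moment hv hp hq P hγ hG hm hκ (fun a => (hh1 a).le) hf1 x hj
    simpa only [ht] using this
  have hmom' : ∀ j < q / 2, v (∑ t ∈ range q,
      (ph' (-(x + t • p)) * c (-(x + t • p)) * c (-p - -(x + t • p))) * (t.choose j : K)) < 1 := by
    intro j hj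
    have := half_moment hv hp hq P hγ' hG hm hκ (fun a => (hh1' a).le) hf1' (-x) hj
    have e : ∀ t : ℕ, -x + (q ^ n * t) • -γ = -(x + t • p) := by
      intro t
      rw [smul_neg, ht]; abel
    simpa only [e] using this
  -- reduction
  let F : ℕ → oo v hv := fun t =>
    ⟨ph (x + t • p) * c (x + t • p) * c (p - (x + t • p)), (hh1 _).le⟩
  let F' : ℕ → oo v hv := fun t =>
    ⟨ph' (-(x + t • p)) * c (-(x + t • p)) * c (-p - -(x + t • p)), (hh1' _).le⟩
  let π := Ideal.Quotient.mk (mm v hv)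
  have hπ : ∀ y : oo v hv, v (y : K) < 1 → π y = 0 := fun y hy =>
    Ideal.Quotient.eq_zero_iff_mem.mpr hy
  have hπ' : ∀ y : oo v hv, π y = 0 → v (y : K) < 1 := fun y hy =>
    Ideal.Quotient.eq_zero_iff_mem.mp hy
  have hq0 : ((q : ℕ) : Rr v hv) = 0 := by
    have := hπ ((q : ℕ) : oo v hv) (by simpa using hq)
    simpa using this
  let Ω : oo v hv := ⟨ph x * ph' (-x), by
    rw [mem_oo, v.map_mul, hph1, hph1', one_mul]⟩
  have hΩ : π Ω ≠ 0 := by
    intro h0
    have := hπ' _ h0
    simp only [Ω] at this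
    rw [v.map_mul, hph1, hph1', one_mul] at this
    exact lt_irrefl _ this
  have htp : ∀ t : ℕ, q • (t • p) = 0 := by
    intro t
    rw [smul_comm, hqp, smul_zero]
  -- products `c y * c (-y)` are `1` modulo the maximal ideal
  have hcc : ∀ y, v (c y * c (-y) - 1) < 1 := by
    intro y
    by_cases hy : y = 0
    · subst hy
      rw [neg_zero, ← sq]
      exact hc0
    · rw [hc y hy, sub_self, v.map_zero]
      exact one_pos
  have hmul : ∀ a b a' b' : oo v hv, π a = π b → π a' = π b' → π (a * a') = π (b * b') := by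
    intro a b a' b' h3 h4
    rw [map_mul, map_mul, h3, h4]
  have hπeq : ∀ a b : oo v hv, v ((a : K) - b) < 1 → π a = π b := by
    intro a b hab
    rw [← sub_eq_zero, ← map_sub]
    exact hπ _ hab
  have hprod : ∀ t < q, π (F t) * π (F' t) = π Ω := by
    intro t _
    rw [← map_mul]
    have e : ((F t * F' t : oo v hv) : K) = (ph (x + t • p) * ph' (-(x + t • p))) *
        ((c (x + t • p) * c (-(x + t • p))) *
          (c (p - (x + t • p)) * c (-(p - (x + t • p))))) := by
      simp only [F, F', Subring.coe_mul]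
      rw [show -(p - (x + t • p)) = -p - -(x + t • p) by abel]
      ring
    have h5 : π (F t * F' t) = π Ω := by
      have hle : ∀ y, c y * c (-y) ∈ oo v hv := fun y => by
        rw [mem_oo, v.map_mul]; exact (hcv y).le
      have h6 : F t * F' t = ((⟨ph (x + t • p), (hph1 _).le⟩ : oo v hv) *
          ⟨ph' (-(x + t • p)), (hph1' _).le⟩) * (⟨_, hle (x + t • p)⟩ * ⟨_, hle (p - (x + t • p))⟩) :=
        Subtype.ext e
      rw [h6]
      have h7 : π ⟨_, hle (x + t • p)⟩ = 1 := by
        rw [← map_one π]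
        exact hπeq _ _ (hcc _)
      have h8 : π ⟨_, hle (p - (x + t • p))⟩ = 1 := by
        rw [← map_one π]
        exact hπeq _ _ (hcc _)
      rw [map_mul, map_mul π ⟨_, hle (x + t • p)⟩, h7, h8, mul_one, mul_one]
      have h9 : Ω = (⟨ph x, (hph1 _).le⟩ : oo v hv) * ⟨ph' (-x), (hph1' _).le⟩ := rfl
      rw [h9]
      refine hmul _ _ _ _ (hπeq _ _ (hph2 x _ (htp t))) (hπeq _ _ ?_)
      have := hph2' (-x) (-(t • p)) (by rw [smul_neg, htp, neg_zero])
      rwa [← neg_add] at this
    exact h5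
  have hM : ∀ j < q / 2, ∑ t ∈ range q, π (F t) * ((t.choose j : ℕ) : Rr v hv) = 0 := by
    intro j hj
    have := hπ (∑ t ∈ range q, F t * ((t.choose j : ℕ) : oo v hv)) (by
      push_cast
      exact hmom j hj)
    rw [map_sum] at this
    simpa only [map_mul, map_natCast] using this
  have hM' : ∀ j < q / 2, ∑ t ∈ range q, π (F' t) * ((t.choose j : ℕ) : Rr v hv) = 0 := by
    intro j hj
    have := hπ (∑ t ∈ range q, F' t * ((t.choose j : ℕ) : oo v hv)) (by
      push_cast
      exact hmom' j hj)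
    rw [map_sum] at this
    simpa only [map_mul, map_natCast] using this
  have hconst := const_of_prod hp hq0 (fun t => π (F t)) (fun t => π (F' t)) hΩ hM hM' hprod
  -- telescoping
  have hF1 : π (F 1) ^ q = π ⟨ph x, (hph1 _).le⟩ ^ q := by
    have hq2 := hp.two_le
    have hall : ∀ t ∈ range q, π (F (t + 1)) = π (F 1) := by
      intro t htq
      rw [mem_range] at htq
      rw [hconst 1 (by omega)]
      rcases Nat.lt_or_ge (t + 1) q with h3 | h3
      · exact hconst _ h3
      · obtain rfl : q = t + 1 := by omega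
        have : F (t + 1) = F 0 := by
          simp only [F, hqp, zero_smul]
        simp only [this]
    have h3 : π (F 1) ^ q = ∏ t ∈ range q, π (F (t + 1)) := by
      rw [prod_congr rfl hall, prod_const, card_range]
    rw [h3, ← map_prod, ← map_pow]
    -- the product
    have hle : ∀ y, c y * c (-y) ∈ oo v hv := fun y => by
      rw [mem_oo, v.map_mul]; exact (hcv y).le
    have e1 : ∏ t ∈ range q, F (t + 1) = (∏ t ∈ range q, (⟨ph (x + (t + 1) • p), (hph1 _).le⟩ : oo v hv))
        * ∏ t ∈ range q, (⟨_, hle (x + t • p)⟩ : oo v hv) := by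
      apply Subtype.ext
      push_cast
      have e2 : ∀ t, ((F (t + 1) : oo v hv) : K) = ph (x + (t + 1) • p) *
          (c (x + (t + 1) • p) * c (-(x + t • p))) := by
        intro t
        simp only [F]
        rw [show p - (x + (t + 1) • p) = -(x + t • p) by rw [succ_nsmul]; abel]
        ring
      rw [prod_congr rfl fun t _ => e2 t, prod_mul_distrib, prod_mul_distrib, prod_mul_distrib]
      congr 2
      have h4 := prod_shift (M := Kˣ) (q := q)
        (fun t => Units.mk0 (c (x + t • p)) (hcne _)) (by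
          apply Units.ext
          simp [hqp])
      have h5 := congrArg (fun u : Kˣ => (u : K)) h4
      simpa using h5
    rw [e1, map_mul, map_prod, map_prod]
    have h6 : ∏ t ∈ range q, π (⟨_, hle (x + t • p)⟩ : oo v hv) = 1 := by
      refine prod_eq_one fun t _ => ?_
      rw [← map_one π]
      exact hπeq _ _ (hcc _)
    rw [h6, mul_one]
    have h7 : ∀ t ∈ range q, π (⟨ph (x + (t + 1) • p), (hph1 _).le⟩ : oo v hv) =
        π ⟨ph x, (hph1 _).le⟩ := fun t _ => hπeq _ _ (hph2 x _ (htp _))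
    rw [prod_congr rfl h7, prod_const, card_range, map_pow]
  -- conclusion: `c (x + p) * c (-x) = 1` modulo the maximal ideal
  have hle1 : v (c (x + p) * c (-x)) = 1 := by
    rw [v.map_mul, hinv]
    exact hcv x
  have h3 : π (F 1) = π ⟨ph (x + p), (hph1 _).le⟩ * π ⟨c (x + p) * c (-x), hle1.le⟩ := by
    rw [← map_mul]
    congr 1
    apply Subtype.ext
    simp only [F, Subring.coe_mul, one_smul]
    rw [show p - (x + p) = -x by abel, mul_assoc]
  have hpx : π (⟨ph (x + p), (hph1 _).le⟩ : oo v hv) = π ⟨ph x, (hph1 _).le⟩ :=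
    hπeq _ _ (hph2 x p hqp)
  have hphne : π (⟨ph x, (hph1 _).le⟩ : oo v hv) ≠ 0 := by
    intro h0
    have := hπ' _ h0
    simp only at this
    rw [hph1] at this
    exact lt_irrefl _ this
  have h4 : π (⟨c (x + p) * c (-x), hle1.le⟩ : oo v hv) ^ q = 1 := by
    rw [h3, mul_pow, hpx] at hF1
    exact mul_left_cancel₀ (pow_ne_zero q hphne) (by rw [hF1, mul_one])
  have h5 : v ((c (x + p) * c (-x)) ^ q ^ 1 - 1) < 1 := by
    have := hπ' ((⟨c (x + p) * c (-x), hle1.le⟩ : oo v hv) ^ q - 1) (by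
      rw [map_sub, map_pow, h4, map_one, sub_self])
    rw [pow_one]
    simpa using this
  have h6 := sub_one_lt hv hp hq hle1.le h5
  have h7 : c (x + p) / c x - 1 = (c (x + p) * c (-x) - 1) -
      (c (x + p) / c x) * (c x * c (-x) - 1) := by
    field_simp [hcne x]
    ring
  rw [h7]
  refine sub_lt' hv h6 ?_
  rw [v.map_mul, map_div₀, hinv, div_self ((v.ne_zero_iff).mpr (hcne x)), one_mul]
  exact hcc x

/-- Elements of order `q` are multiples by `q^n` of generators of the Sylow subgroup. -/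
theorem exists_gen (hp : q.Prime) (hγ : addOrderOf γ = q ^ (n + 1))
    (hG : Fintype.card G = m * q ^ (n + 1)) (hm : ¬ q ∣ m) {z : G} (hz : q • z = 0) (hz0 : z ≠ 0) :
    ∃ γ' : G, addOrderOf γ' = q ^ (n + 1) ∧ (q ^ n) • γ' = z := by
  have h1 : z ∈ AddSubgroup.zmultiples γ := by
    refine Pg.mem_gam hp hγ hG hm ?_
    rw [pow_succ, mul_smul, hz, smul_zero]
  classical
  rw [mem_zmultiples_iff_mem_range_addOrderOf, mem_image] at h1
  obtain ⟨s, -, rfl⟩ := h1
  have h2 : q ^ (n + 1) ∣ q * s := by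
    rw [← hγ, addOrderOf_dvd_iff_nsmul_eq_zero, mul_smul]
    exact hz
  rw [pow_succ'] at h2
  obtain ⟨s', rfl⟩ := Nat.dvd_of_mul_dvd_mul_left hp.pos h2
  refine ⟨s' • γ, ?_, by rw [← mul_smul]⟩
  have h3 : ¬ q ∣ s' := by
    rintro ⟨r, rfl⟩
    apply hz0
    rw [← mul_assoc, ← pow_succ, ← hγ, mul_comm, mul_smul, addOrderOf_nsmul_eq_zero, smul_zero]
  rw [Nat.Coprime.addOrderOf_nsmul, hγ]
  rw [hγ]
  exact ((Nat.Prime.coprime_iff_not_dvd hp).mpr h3).pow_left _

/-- **The leaf lemma** for all elements killed by `q`. -/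
theorem leaf_all (hv : IsNonarchimedean v) (hp : q.Prime) (hq : v (q : K) < 1) (P : Pg G K)
    (hγ : addOrderOf γ = q ^ (n + 1)) (hG : Fintype.card G = m * q ^ (n + 1)) (hm : ¬ q ∣ m)
    (c : G → K) (hc : ∀ x, x ≠ 0 → c x * c (-x) = 1) (hc0 : v (c 0 ^ 2 - 1) < 1) {κ : K}
    (hκ : v κ ^ 2 = v ((q : K) ^ (n + 1)))
    (hA : ∀ p, p ≠ 0 → q • p = 0 → Ap P v c κ q p) (x z : G) (hz : q • z = 0) :
    v (c (x + z) / c x - 1) < 1 := by
  by_cases hz0 : z = 0
  · subst hz0
    rw [add_zero]
    by_cases h : c x = 0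
    · by_cases hx : x = 0
      · subst hx
        rw [h] at hc0
        simp at hc0
      · have := hc x hx
        rw [h, zero_mul] at this
        exact absurd this zero_ne_one
    · rw [div_self h, sub_self, v.map_zero]
      exact one_pos
  · obtain ⟨γ', hγ', rfl⟩ := exists_gen hp hγ hG hm hz hz0
    exact leaf hv hp hq P hγ' hG hm c hc hc0 hκ (hA _ hz0 hz)
      (hA _ (neg_ne_zero.mpr hz0) (by rw [smul_neg, hz, neg_zero])) x

end leaf

end ZU
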