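import Pool.Agent.Lib.MP_d0f9e0_co.U.Leaf

/-!
The leaf lemma for functions with `c x * c (-x) = Q x`, where `Q` is almost constant along the elements
of order `q` (the form in which the near group equations hold for the canonical function with its phases).
-/

open Finset

namespace ZU

section leaf

variable {G K : Type*} [AddCommGroup G] [Fintype G] [Field K] {v : AbsoluteValue K ℝ}
  {q n m : ℕ} {γ : G}

/-- **The leaf lemma** for a function with `c x * c (-x) = Q x`. -/
theorem leafQ (hv : IsNonarchimedean v) (hp : q.Prime) (hq : v (q : K) < 1) (P : Pg G K)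
    (hγ : addOrderOf γ = q ^ (n + 1)) (hG : Fintype.card G = m * q ^ (n + 1)) (hm : ¬ q ∣ m)
    (c Q : G → K) (hQ1 : ∀ x, v (Q x) = 1) (hQ2 : ∀ x z, q • z = 0 → v (Q (x + z) - Q x) < 1)
    (hc : ∀ x, x ≠ 0 → c x * c (-x) = Q x) (hc0 : v (c 0 ^ 2 - Q 0) < 1) {κ : K}
    (hκ : v κ ^ 2 = v ((q : K) ^ (n + 1))) (hA : Ap P v c κ q ((q ^ n) • γ))
    (hA' : Ap P v c κ q (-((q ^ n) • γ))) (x : G) :
    v (c (x + (q ^ n) • γ) / c x - 1) < 1 := by
  classical
  have hqp : q • ((q ^ n) • γ) = 0 := by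
    rw [← mul_smul, ← pow_succ', ← hγ, addOrderOf_nsmul_eq_zero]
  have hv0 : v (c 0) = 1 := by
    have h1 : v (c 0 ^ 2) = 1 := by
      have e : c 0 ^ 2 = (c 0 ^ 2 - Q 0) + Q 0 := by ring
      rw [e]
      have := IsNonarchimedean.add_eq_right_of_lt (R := ℝ) hv (x := c 0 ^ 2 - Q 0) (y := Q 0)
        (by rw [hQ1]; exact hc0)
      rw [this, hQ1]
    rw [v.map_pow] at h1
    exact (pow_eq_one_iff_of_nonneg (v.nonneg _) two_ne_zero).mp h1
  have hcv : ∀ x, v (c x) * v (c (-x)) = 1 := by
    intro x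
    by_cases hx : x = 0
    · subst hx
      rw [neg_zero, hv0, one_mul]
    · rw [← v.map_mul, hc x hx, hQ1]
  have hcne : ∀ x, c x ≠ 0 := by
    intro x h0
    have := hcv x
    rw [h0, v.map_zero, zero_mul] at this
    exact zero_ne_one this
  obtain ⟨ph, hph1, hph2, hph3⟩ := hA
  obtain ⟨ph', hph1', hph2', hph3'⟩ := hA'
  have hinv : ∀ x, v (c (x + (q ^ n) • γ)) = v (c x) := fun x =>
    leaf_v hv hp hq P hγ hG hm c hcv hκ (fun a => ph a * c a * c ((q ^ n) • γ - a))
      (fun a => by rw [v.map_mul, v.map_mul, hph1, one_mul]) hph3 x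
  set p := (q ^ n) • γ with hpdef
  have hinv' : ∀ x, v (c (x - p)) = v (c x) := by
    intro x
    rw [← hinv (x - p), sub_add_cancel]
  have hvp : v (c p) = 1 := by rw [← zero_add p, hinv, hv0]
  have hvp' : v (c (-p)) = 1 := by rw [← zero_sub p, hinv', hv0]
  have hh1 : ∀ a, v (ph a * c a * c (p - a)) = 1 := by
    intro a
    rw [v.map_mul, v.map_mul, hph1, one_mul, show p - a = -(a - p) by abel, ← hinv' a]
    exact hcv (a - p)
  have hh1' : ∀ a, v (ph' a * c a * c (-p - a)) = 1 := by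
    intro a
    rw [v.map_mul, v.map_mul, hph1', one_mul, show -p - a = -(a + p) by abel, ← hinv a]
    exact hcv (a + p)
  have hf1 : ∀ y, v (P.ft (fun a => ph a * c a * c (p - a)) y) ≤ v κ := by
    intro y
    rw [hph3, hvp, mul_one, mul_assoc]
    have : v (c y) * v (c (-p - y)) = 1 := by
      rw [show -p - y = -(y + p) by abel, ← hinv y]
      exact hcv (y + p)
    rw [this, mul_one]
  have hf1' : ∀ y, v (P.ft (fun a => ph' a * c a * c (-p - a)) y) ≤ v κ := by
    intro y
    rw [hph3', hvp', mul_one, mul_assoc]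
    have : v (c y) * v (c (- -p - y)) = 1 := by
      rw [show - -p - y = -(y - p) by abel, ← hinv' y]
      exact hcv (y - p)
    rw [this, mul_one]
  -- the two functions on the coset of `x`
  have ht : ∀ t : ℕ, (q ^ n * t) • γ = t • p := by
    intro t; rw [hpdef, ← mul_smul, mul_comm]
  have hγ' : addOrderOf (-γ) = q ^ (n + 1) := by rw [addOrderOf_neg]; exact hγ
  have hmom : ∀ j < q / 2, v (∑ t ∈ range q, (ph (x + t • p) * c (x + t • p) * c (p - (x + t • p))) *
      (t.choose j : K)) < 1 := by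
    intro j hj
    have := half_moment hv hp hq P hγ hG hm hκ (fun a => (hh1 a).le) hf1 x hj
    simpa only [ht] using this
  have hmom' : ∀ j < q / 2, v (∑ t ∈ range q,
      (ph' (-(x + t • p)) * c (-(x + t • p)) * c (-p - -(x + t • p))) * (t.choose j : K)) < 1 := by
    intro j hj
    have := half_moment hv hp hq P hγ' hG hm hκ (fun a => (hh1' a).le) hf1' (-x) hj
    have e : ∀ t : ℕ, -x + (q ^ n * t) • -γ = -(x + t • p) := by
      intro t
      rw [smul_neg, ht]; abel
    simpa only [e] using this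
  -- reduction
  let F : ℕ → oo v hv := fun t =>
    ⟨ph (x + t • p) * c (x + t • p) * c (p - (x + t • p)), (hh1 _).le⟩
  let F' : ℕ → oo v hv := fun t =>
    ⟨ph' (-(x + t • p)) * c (-(x + t • p)) * c (-p - -(x + t • p)), (hh1' _).le⟩
  let π := Ideal.Quotient.mk (mm v hv)
  have hπ : ∀ y : oo v hv, v (y : K) < 1 → π y = 0 := fun y hy =>
    Ideal.Quotient.eq_zero_iff_mem.mpr hy
  have hπ' : ∀ y : oo v hv, π y = 0 → v (y : K) < 1 := fun y hy =>
    Ideal.Quotient.eq_zero_iff_mem.mp hy
  have hq0 : ((q : ℕ) : Rr v hv) = 0 := by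
    have := hπ ((q : ℕ) : oo v hv) (by simpa using hq)
    simpa using this
  let Ω : oo v hv := ⟨ph x * ph' (-x) * (Q x * Q (p - x)), by
    rw [mem_oo, v.map_mul, v.map_mul, v.map_mul, hph1, hph1', hQ1, hQ1, one_mul, one_mul]⟩
  have hΩ : π Ω ≠ 0 := by
    intro h0
    have := hπ' _ h0
    simp only [Ω] at this
    rw [v.map_mul, v.map_mul, v.map_mul, hph1, hph1', hQ1, hQ1, one_mul, one_mul] at this
    exact lt_irrefl _ this
  have htp : ∀ t : ℕ, q • (t • p) = 0 := by
    intro t
    rw [smul_comm, hqp, smul_zero]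
  -- products `c y * c (-y)` are `Q y` modulo the maximal ideal
  have hcc : ∀ y, v (c y * c (-y) - Q y) < 1 := by
    intro y
    by_cases hy : y = 0
    · subst hy
      rw [neg_zero, ← sq]
      exact hc0
    · rw [hc y hy, sub_self, v.map_zero]
      exact one_pos
  have hmul : ∀ a b a' b' : oo v hv, π a = π b → π a' = π b' → π (a * a') = π (b * b') := by
    intro a b a' b' h3 h4
    rw [map_mul, map_mul, h3, h4]
  have hπeq : ∀ a b : oo v hv, v ((a : K) - b) < 1 → π a = π b := by
    intro a b hab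
    rw [← sub_eq_zero, ← map_sub]
    exact hπ _ hab
  have hprod : ∀ t < q, π (F t) * π (F' t) = π Ω := by
    intro t _
    rw [← map_mul]
    have e : ((F t * F' t : oo v hv) : K) = (ph (x + t • p) * ph' (-(x + t • p))) *
        ((c (x + t • p) * c (-(x + t • p))) *
          (c (p - (x + t • p)) * c (-(p - (x + t • p))))) := by
      simp only [F, F', Subring.coe_mul]
      rw [show -(p - (x + t • p)) = -p - -(x + t • p) by abel]
      ring
    have h5 : π (F t * F' t) = π Ω := by
      have hle : ∀ y, c y * c (-y) ∈ oo v hv := fun y => by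
        rw [mem_oo, v.map_mul]; exact (hcv y).le
      have h6 : F t * F' t = ((⟨ph (x + t • p), (hph1 _).le⟩ : oo v hv) *
          ⟨ph' (-(x + t • p)), (hph1' _).le⟩) * (⟨_, hle (x + t • p)⟩ * ⟨_, hle (p - (x + t • p))⟩) :=
        Subtype.ext e
      rw [h6]
      have h7 : π ⟨_, hle (x + t • p)⟩ = π ⟨Q x, (hQ1 _).le⟩ := by
        refine hπeq _ _ ?_
        have e3 : c (x + t • p) * c (-(x + t • p)) - Q x =
          (c (x + t • p) * c (-(x + t • p)) - Q (x + t • p)) + (Q (x + t • p) - Q x) := by ring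
        simp only [e3]
        exact add_lt' hv (hcc _) (hQ2 x _ (htp t))
      have h8 : π ⟨_, hle (p - (x + t • p))⟩ = π ⟨Q (p - x), (hQ1 _).le⟩ := by
        refine hπeq _ _ ?_
        have e3 : c (p - (x + t • p)) * c (-(p - (x + t • p))) - Q (p - x) =
          (c (p - (x + t • p)) * c (-(p - (x + t • p))) - Q (p - (x + t • p))) +
            (Q (p - (x + t • p)) - Q (p - x)) := by ring
        simp only [e3]
        refine add_lt' hv (hcc _) ?_
        have := hQ2 (p - x) (-(t • p)) (by rw [smul_neg, htp, neg_zero])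
        rwa [show p - x + -(t • p) = p - (x + t • p) by abel] at this
      rw [map_mul, map_mul π ⟨_, hle (x + t • p)⟩, h7, h8]
      have h9 : Ω = ((⟨ph x, (hph1 _).le⟩ : oo v hv) * ⟨ph' (-x), (hph1' _).le⟩) *
          ((⟨Q x, (hQ1 _).le⟩ : oo v hv) * ⟨Q (p - x), (hQ1 _).le⟩) := rfl
      rw [h9, map_mul π (_ * _), map_mul π (⟨Q x, _⟩ : oo v hv)]
      congr 1
      refine hmul _ _ _ _ (hπeq _ _ (hph2 x _ (htp t))) (hπeq _ _ ?_)
      have := hph2' (-x) (-(t • p)) (by rw [smul_neg, htp, neg_zero])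
      rwa [← neg_add] at this
    exact h5
  have hM : ∀ j < q / 2, ∑ t ∈ range q, π (F t) * ((t.choose j : ℕ) : Rr v hv) = 0 := by
    intro j hj
    have := hπ (∑ t ∈ range q, F t * ((t.choose j : ℕ) : oo v hv)) (by
      push_cast
      exact hmom j hj)
    rw [map_sum] at this
    simpa only [map_mul, map_natCast] using this
  have hM' : ∀ j < q / 2, ∑ t ∈ range q, π (F' t) * ((t.choose j : ℕ) : Rr v hv) = 0 := by
    intro j hj
    have := hπ (∑ t ∈ range q, F' t * ((t.choose j : ℕ) : oo v hv)) (by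
      push_cast
      exact hmom' j hj)
    rw [map_sum] at this
    simpa only [map_mul, map_natCast] using this
  have hconst := const_of_prod hp hq0 (fun t => π (F t)) (fun t => π (F' t)) hΩ hM hM' hprod
  -- telescoping
  have hF1 : π (F 1) ^ q = π ⟨ph x, (hph1 _).le⟩ ^ q * π ⟨Q x, (hQ1 _).le⟩ ^ q := by
    have hq2 := hp.two_le
    have hall : ∀ t ∈ range q, π (F (t + 1)) = π (F 1) := by
      intro t htq
      rw [mem_range] at htq
      rw [hconst 1 (by omega)]
      rcases Nat.lt_or_ge (t + 1) q with h3 | h3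
      · exact hconst _ h3
      · obtain rfl : q = t + 1 := by omega
        have : F (t + 1) = F 0 := by
          simp only [F, hqp, zero_smul]
        simp only [this]
    have h3 : π (F 1) ^ q = ∏ t ∈ range q, π (F (t + 1)) := by
      rw [prod_congr rfl hall, prod_const, card_range]
    rw [h3, ← map_prod, ← map_pow, ← map_pow]
    -- the product
    have hle : ∀ y, c y * c (-y) ∈ oo v hv := fun y => by
      rw [mem_oo, v.map_mul]; exact (hcv y).le
    have e1 : ∏ t ∈ range q, F (t + 1) = (∏ t ∈ range q, (⟨ph (x + (t + 1) • p), (hph1 _).le⟩ : oo v hv))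
        * ∏ t ∈ range q, (⟨_, hle (x + t • p)⟩ : oo v hv) := by
      apply Subtype.ext
      push_cast
      have e2 : ∀ t, ((F (t + 1) : oo v hv) : K) = ph (x + (t + 1) • p) *
          (c (x + (t + 1) • p) * c (-(x + t • p))) := by
        intro t
        simp only [F]
        rw [show p - (x + (t + 1) • p) = -(x + t • p) by rw [succ_nsmul]; abel]
        ring
      rw [prod_congr rfl fun t _ => e2 t, prod_mul_distrib, prod_mul_distrib, prod_mul_distrib]
      congr 2
      have h4 := prod_shift (M := Kˣ) (q := q)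
        (fun t => Units.mk0 (c (x + t • p)) (hcne _)) (by
          apply Units.ext
          simp [hqp])
      have h5 := congrArg (fun u : Kˣ => (u : K)) h4
      simpa using h5
    rw [e1, map_mul, map_prod, map_prod]
    have h6 : ∏ t ∈ range q, π (⟨_, hle (x + t • p)⟩ : oo v hv) = π ⟨Q x, (hQ1 _).le⟩ ^ q := by
      have h6' : ∀ t ∈ range q, π (⟨_, hle (x + t • p)⟩ : oo v hv) = π ⟨Q x, (hQ1 _).le⟩ := by
        intro t _
        refine hπeq _ _ ?_
        have e3 : c (x + t • p) * c (-(x + t • p)) - Q x =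
          (c (x + t • p) * c (-(x + t • p)) - Q (x + t • p)) + (Q (x + t • p) - Q x) := by ring
        simp only [e3]
        exact add_lt' hv (hcc _) (hQ2 x _ (htp t))
      rw [prod_congr rfl h6', prod_const, card_range]
    rw [h6, map_pow π ⟨Q x, _⟩]
    congr 1
    have h7 : ∀ t ∈ range q, π (⟨ph (x + (t + 1) • p), (hph1 _).le⟩ : oo v hv) =
        π ⟨ph x, (hph1 _).le⟩ := fun t _ => hπeq _ _ (hph2 x _ (htp _))
    rw [prod_congr rfl h7, prod_const, card_range, map_pow]
  -- conclusion: `c (x + p) * c (-x) = Q x` modulo the maximal ideal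
  have hle1 : v (c (x + p) * c (-x)) = 1 := by
    rw [v.map_mul, hinv]
    exact hcv x
  have h3 : π (F 1) = π ⟨ph (x + p), (hph1 _).le⟩ * π ⟨c (x + p) * c (-x), hle1.le⟩ := by
    rw [← map_mul]
    congr 1
    apply Subtype.ext
    simp only [F, Subring.coe_mul, one_smul]
    rw [show p - (x + p) = -x by abel, mul_assoc]
  have hpx : π (⟨ph (x + p), (hph1 _).le⟩ : oo v hv) = π ⟨ph x, (hph1 _).le⟩ :=
    hπeq _ _ (hph2 x p hqp)
  have hphne : π (⟨ph x, (hph1 _).le⟩ : oo v hv) ≠ 0 := by
    intro h0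
    have := hπ' _ h0
    simp only at this
    rw [hph1] at this
    exact lt_irrefl _ this
  have hQx : Q x ≠ 0 := by
    rw [← v.ne_zero_iff, hQ1]
    exact one_ne_zero
  have hle2 : v (c (x + p) * c (-x) / Q x) = 1 := by
    rw [map_div₀, hle1, hQ1, div_one]
  have h3' : π ⟨c (x + p) * c (-x), hle1.le⟩ = π ⟨c (x + p) * c (-x) / Q x, hle2.le⟩ *
      π ⟨Q x, (hQ1 _).le⟩ := by
    rw [← map_mul]
    congr 1
    apply Subtype.ext
    simp only [Subring.coe_mul]
    rw [div_mul_cancel₀ _ hQx]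
  have hQne : π (⟨Q x, (hQ1 _).le⟩ : oo v hv) ≠ 0 := by
    intro h0
    have := hπ' _ h0
    simp only at this
    rw [hQ1] at this
    exact lt_irrefl _ this
  have h4 : π (⟨c (x + p) * c (-x) / Q x, hle2.le⟩ : oo v hv) ^ q = 1 := by
    rw [h3, h3', mul_pow, mul_pow, hpx] at hF1
    have h5 := mul_left_cancel₀ (pow_ne_zero q hphne) hF1
    exact mul_right_cancel₀ (pow_ne_zero q hQne) (by rw [h5, one_mul])
  have h5 : v ((c (x + p) * c (-x) / Q x) ^ q ^ 1 - 1) < 1 := by
    have := hπ' ((⟨c (x + p) * c (-x) / Q x, hle2.le⟩ : oo v hv) ^ q - 1) (by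
      rw [map_sub, map_pow, h4, map_one, sub_self])
    rw [pow_one]
    simpa using this
  have h6 := sub_one_lt hv hp hq hle2.le h5
  have h7 : c (x + p) / c x - 1 = (c (x + p) * c (-x) / Q x - 1) -
      (c (x + p) / c x) * ((c x * c (-x) - Q x) / Q x) := by
    field_simp [hcne x, hQx]
    ring
  rw [h7]
  refine sub_lt' hv h6 ?_
  rw [v.map_mul, map_div₀, map_div₀, hinv, div_self ((v.ne_zero_iff).mpr (hcne x)), one_mul, hQ1,
    div_one]
  exact hcc x

/-- **The leaf lemma** for all elements killed by `q`. -/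
theorem leafQ_all (hv : IsNonarchimedean v) (hp : q.Prime) (hq : v (q : K) < 1) (P : Pg G K)
    (hγ : addOrderOf γ = q ^ (n + 1)) (hG : Fintype.card G = m * q ^ (n + 1)) (hm : ¬ q ∣ m)
    (c Q : G → K) (hQ1 : ∀ x, v (Q x) = 1) (hQ2 : ∀ x z, q • z = 0 → v (Q (x + z) - Q x) < 1)
    (hc : ∀ x, x ≠ 0 → c x * c (-x) = Q x) (hc0 : v (c 0 ^ 2 - Q 0) < 1) {κ : K}
    (hκ : v κ ^ 2 = v ((q : K) ^ (n + 1)))
    (hA : ∀ p, p ≠ 0 → q • p = 0 → Ap P v c κ q p) (x z : G) (hz : q • z = 0) :
    v (c (x + z) / c x - 1) < 1 := by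
  by_cases hz0 : z = 0
  · subst hz0
    rw [add_zero]
    by_cases h : c x = 0
    · by_cases hx : x = 0
      · subst hx
        rw [h] at hc0
        simp [hQ1] at hc0
      · have := hc x hx
        rw [h, zero_mul] at this
        have h1 := hQ1 x
        rw [← this, v.map_zero] at h1
        exact absurd h1 zero_ne_one
    · rw [div_self h, sub_self, v.map_zero]
      exact one_pos
  · obtain ⟨γ', hγ', rfl⟩ := exists_gen hp hγ hG hm hz hz0
    exact leafQ hv hp hq P hγ' hG hm c Q hQ1 hQ2 hc hc0 hκ (hA _ hz0 hz)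
      (hA _ (neg_ne_zero.mpr hz0) (by rw [smul_neg, hz, neg_zero])) x

end leaf

end ZU
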