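import Pool.Agent.Lib.MP_d0f9e0_co.U.Lu

/-!
Integrality: the absolute values of a solution of the near group equations over `q` are invariant under
the elements of order `q` of a cyclic Sylow `q`-subgroup.
-/

open Finset

namespace ZU

theorem sum_bound {q k : ℕ} (F : ℕ → ℝ) {l u : ℝ} (hl : ∀ t < q, l ≤ F t) (hlu : l ≤ u)
    (hk : k ≤ ((range q).filter fun t => F t = u).card) :
    (k : ℝ) * u + ((q : ℝ) - k) * l ≤ ∑ t ∈ range q, F t := by
  have h1 : ∑ t ∈ (range q).filter (fun t => F t = u), (F t - l) ≤ ∑ t ∈ range q, (F t - l) := by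
    refine sum_le_sum_of_subset_of_nonneg (filter_subset _ _) fun t ht _ => ?_
    rw [mem_range] at ht
    linarith [hl t ht]
  have h2 : ∑ t ∈ (range q).filter (fun t => F t = u), (F t - l) =
      ((range q).filter fun t => F t = u).card * (u - l) := by
    rw [sum_congr rfl fun t ht => by rw [(mem_filter.mp ht).2], sum_const, nsmul_eq_mul]
  rw [h2, sum_sub_distrib, sum_const, card_range, nsmul_eq_mul] at h1
  have h3 : (k : ℝ) ≤ (((range q).filter fun t => F t = u).card : ℝ) := by exact_mod_cast hk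
  nlinarith [mul_le_mul_of_nonneg_right h3 (sub_nonneg.mpr hlu)]

theorem endgame {q c c' : ℕ} (hcc : q ≤ c + c' + 1) {X Y : ℝ}
    (hX : 0 ≤ X) (hY : 0 ≤ Y) (h1 : ((c + 1 : ℕ) : ℝ) * X ≤ ((q : ℝ) - (c + 1 : ℕ)) * Y)
    (h2 : ((c' + 1 : ℕ) : ℝ) * Y ≤ ((q : ℝ) - (c' + 1 : ℕ)) * X) : X = 0 ∧ Y = 0 := by
  have e1 : ((q : ℝ) - (c + 1 : ℕ)) ≤ c' := by
    have : (q : ℝ) ≤ c + c' + 1 := by exact_mod_cast hcc
    push_cast; linarith
  have e2 : ((q : ℝ) - (c' + 1 : ℕ)) ≤ c := by
    have : (q : ℝ) ≤ c + c' + 1 := by exact_mod_cast hcc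
    push_cast; linarith
  have h1' : ((c : ℝ) + 1) * X ≤ c' * Y := by
    have := mul_le_mul_of_nonneg_right e1 hY
    push_cast at h1 this ⊢; linarith
  have h2' : ((c' : ℝ) + 1) * Y ≤ c * X := by
    have := mul_le_mul_of_nonneg_right e2 hX
    push_cast at h2 this ⊢; linarith
  have : X + Y ≤ 0 := by
    have hcn : (0 : ℝ) ≤ c := Nat.cast_nonneg _
    have hcn' : (0 : ℝ) ≤ c' := Nat.cast_nonneg _
    have h3 : ((c : ℝ) + 1) * (((c' : ℝ) + 1) * Y) ≤ (c : ℝ) * (c' * Y) := by
      calc ((c : ℝ) + 1) * (((c' : ℝ) + 1) * Y) ≤ ((c : ℝ) + 1) * (c * X) :=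
            mul_le_mul_of_nonneg_left h2' (by linarith)
        _ = c * (((c : ℝ) + 1) * X) := by ring
        _ ≤ c * (c' * Y) := mul_le_mul_of_nonneg_left h1' hcn
    have h4 : ((c : ℝ) + c' + 1) * Y ≤ 0 := by nlinarith
    have h5 : Y ≤ 0 := by
      by_contra! h
      have : 0 < ((c : ℝ) + c' + 1) * Y := mul_pos (by linarith) h
      linarith
    have h6 : Y = 0 := le_antisymm h5 hY
    rw [h6] at h1'
    have h7 : X ≤ 0 := by
      by_contra! h
      have : 0 < ((c : ℝ) + 1) * X := mul_pos (by linarith) h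
      linarith
    linarith
  exact ⟨by linarith, by linarith⟩

section leaf

variable {G K : Type*} [AddCommGroup G] [Fintype G] [Field K] {v : AbsoluteValue K ℝ}
  {q n m : ℕ} {γ : G}

/-- **Integrality.** -/
theorem leaf_v (hv : IsNonarchimedean v) (hp : q.Prime) (hq : v (q : K) < 1) (P : Pg G K)
    (hγ : addOrderOf γ = q ^ (n + 1)) (hG : Fintype.card G = m * q ^ (n + 1)) (hm : ¬ q ∣ m)
    (c : G → K) (hc : ∀ x, v (c x) * v (c (-x)) = 1) {κ : K}
    (hκ : v κ ^ 2 = v ((q : K) ^ (n + 1))) (h : G → K)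
    (h1 : ∀ a, v (h a) = v (c a) * v (c ((q ^ n) • γ - a)))
    (h2 : ∀ x, v (P.ft h x) = v κ * v (c ((q ^ n) • γ)) * v (c x) * v (c (-((q ^ n) • γ) - x)))
    (x : G) : v (c (x + (q ^ n) • γ)) = v (c x) := by
  classical
  set p := (q ^ n) • γ with hpdef
  have hqp : q • p = 0 := by
    rw [hpdef, ← mul_smul, ← pow_succ', ← hγ, addOrderOf_nsmul_eq_zero]
  obtain ⟨x₁, hx₁⟩ := P.exists_dual hp hγ
  set ζ := P.b γ x₁ with hζdef
  have hN0 : q ^ (n + 1) ≠ 0 := pow_ne_zero _ hp.ne_zero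
  have hlt : ∀ j, v (1 - ζ ^ j) < 1 := v_one_sub_lt hv hp hq hx₁.pow_eq_one
  have hcpos : ∀ x, 0 < v (c x) := by
    intro x
    rcases (v.nonneg (c x)).lt_or_eq with h0 | h0
    · exact h0
    · have := hc x
      rw [← h0, zero_mul] at this
      exact absurd this zero_ne_one
  set L : G → ℝ := fun x => Real.log (v (c x)) with hL
  have hLe : ∀ x, v (c x) = Real.exp (L x) := fun x => (Real.exp_log (hcpos x)).symm
  have hLneg : ∀ x, L (-x) = -L x := by
    intro x
    have := congrArg Real.log (hc x)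
    rw [Real.log_mul (hcpos x).ne' (hcpos _).ne', Real.log_one] at this
    simp only [hL]
    linarith
  set D : G → ℝ := fun x => L (x + p) - L x with hD
  have hvh : ∀ a, v (h a) = Real.exp (D (a - p)) := by
    intro a
    rw [h1 a, hLe, hLe, ← Real.exp_add]
    congr 1
    have : p - a = -(a - p) := by abel
    rw [this, hLneg]
    simp only [hD, sub_add_cancel]
    ring
  set κ' := v κ * v (c p) with hκ'
  have hvκ : 0 < v κ := by
    have hqpos : 0 < v ((q : K) ^ (n + 1)) := by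
      rw [v.pos_iff]
      have h3 : v (pp ζ 0) * v (pp ζ (q ^ (n + 1) - 1)) = v ((q ^ (n + 1) : ℕ) : K) :=
        v_pp_mul hx₁ (by have := Nat.pos_of_ne_zero hN0; omega)
      have h4 := v_pp_pos (v := v) hx₁ (k := q ^ (n + 1) - 1)
        (by have := Nat.pos_of_ne_zero hN0; omega)
      rw [pp_zero, v.map_one, one_mul] at h3
      rw [h3, v.pos_iff] at h4
      push_cast at h4
      exact h4
    rcases (v.nonneg κ).lt_or_eq with h0 | h0
    · exact h0
    · rw [← h0] at hκ
      rw [← hκ] at hqpos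
      norm_num at hqpos
  have hκ'pos : 0 < κ' := mul_pos hvκ (hcpos _)
  have hvf : ∀ y, v (P.ft h y) = κ' * Real.exp (-D y) := by
    intro y
    rw [h2 y, hLe y, hLe (-p - y), hκ', mul_assoc (v κ * v (c p)), ← Real.exp_add]
    congr 2
    have : -p - y = -(y + p) := by abel
    rw [this, hLneg]
    simp only [hD]
    ring
  obtain ⟨x0, -, hx0⟩ := exists_max_image (univ : Finset G) D ⟨0, mem_univ _⟩
  obtain ⟨x1, -, hx1⟩ := exists_min_image (univ : Finset G) D ⟨0, mem_univ _⟩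
  have hx0' : ∀ x, D x ≤ D x0 := fun x => hx0 x (mem_univ _)
  have hx1' : ∀ x, D x1 ≤ D x := fun x => hx1 x (mem_univ _)
  set M := Real.exp (D x0) with hM
  set B := κ' * Real.exp (-D x1) with hB
  have hMpos : 0 < M := Real.exp_pos _
  have hBpos : 0 < B := mul_pos hκ'pos (Real.exp_pos _)
  have hf : ∀ a, v (h a) ≤ M := fun a => by rw [hvh]; exact Real.exp_le_exp.mpr (hx0' _)
  have hfB : ∀ y, v (P.ft h y) ≤ B := fun y => by
    rw [hvf]
    exact mul_le_mul_of_nonneg_left (Real.exp_le_exp.mpr (by linarith [hx1' y])) hκ'pos.le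
  have hvm : v (m : K) = 1 := by
    have := ndvd_eq (K := K) hv hp hq (a := (m : ℤ)) (by rw [Int.natCast_dvd_natCast]; exact hm)
    simpa using this
  have hvN : v ((q ^ (n + 1) : ℕ) : K) = v κ ^ 2 := by rw [hκ]; push_cast; rfl
  have hvG : v (Fintype.card G : K) = v κ ^ 2 := by
    rw [hG]
    push_cast
    rw [v.map_mul, hvm, one_mul, hκ]
  have hff : ∀ y, v (P.ft (P.ft h) y) ≤ v κ ^ 2 * M := by
    intro y
    rw [P.ft_ft, v.map_mul, hvG]
    exact mul_le_mul_of_nonneg_left (hf _) (sq_nonneg _)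
  -- the two degrees
  set d := Nat.findGreatest (fun c => ∀ k < q ^ n * c, B < M * v (pp ζ k)) q with hd
  set d' := Nat.findGreatest (fun c => ∀ k < q ^ n * c, v κ ^ 2 * M < B * v (pp ζ k)) q with hd'
  have hdq : d ≤ q := Nat.findGreatest_le _
  have hdq' : d' ≤ q := Nat.findGreatest_le _
  have hds : ∀ k < q ^ n * d, B < M * v (pp ζ k) :=
    Nat.findGreatest_spec (P := fun c => ∀ k < q ^ n * c, B < M * v (pp ζ k)) (Nat.zero_le q)
      (by simp)
  have hds' : ∀ k < q ^ n * d', v κ ^ 2 * M < B * v (pp ζ k) :=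
    Nat.findGreatest_spec (P := fun c => ∀ k < q ^ n * c, v κ ^ 2 * M < B * v (pp ζ k))
      (Nat.zero_le q) (by simp)
  have ht : ∀ t : ℕ, (q ^ n * t) • γ = t • p := by
    intro t; rw [hpdef, ← mul_smul, mul_comm]
  have hcard : d + 1 ≤ ((range q).filter fun t => D (x0 + t • p) = D x0).card := by
    have h3 := lu hv hp hq P hγ hG hm hx₁ hMpos hf hfB hdq hds (a := x0 + p)
      (by rw [hvh, add_sub_cancel_right])
    refine h3.trans (card_le_card ?_)
    intro t
    rw [mem_filter, mem_filter]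
    rintro ⟨h4, h5⟩
    refine ⟨h4, ?_⟩
    rw [ht, hvh, hM] at h5
    have h6 := Real.exp_injective h5
    rwa [show x0 + p + t • p - p = x0 + t • p by abel] at h6
  have hcard' : d' + 1 ≤ ((range q).filter fun t => D (x1 + t • p) = D x1).card := by
    have h3 := lu hv hp hq P hγ hG hm hx₁ hBpos hfB hff hdq' hds' (a := x1) (hvf _)
    refine h3.trans (card_le_card ?_)
    intro t
    rw [mem_filter, mem_filter]
    rintro ⟨h4, h5⟩
    refine ⟨h4, ?_⟩
    rw [ht, hvf, hB] at h5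
    have h6 := Real.exp_injective (mul_left_cancel₀ hκ'pos.ne' h5)
    linarith
  have hd1 : d + 1 ≤ q := hcard.trans ((card_filter_le _ _).trans (card_range q).le)
  have hd1' : d' + 1 ≤ q := hcard'.trans ((card_filter_le _ _).trans (card_range q).le)
  have hqn : 0 < q ^ n := pow_pos hp.pos n
  have hdd : q ≤ d + d' + 1 := by
    by_contra! hlt2
    have h3 : ¬ ∀ k < q ^ n * (d + 1), B < M * v (pp ζ k) :=
      Nat.findGreatest_is_greatest (P := fun c => ∀ k < q ^ n * c, B < M * v (pp ζ k))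
        (Nat.lt_succ_self d) hd1
    have h4 : ¬ ∀ k < q ^ n * (d' + 1), v κ ^ 2 * M < B * v (pp ζ k) :=
      Nat.findGreatest_is_greatest (P := fun c => ∀ k < q ^ n * c, v κ ^ 2 * M < B * v (pp ζ k))
        (Nat.lt_succ_self d') hd1'
    push Not at h3 h4
    obtain ⟨k, hk, hkB⟩ := h3
    obtain ⟨k', hk', hkB'⟩ := h4
    have h5 : q ^ n * (d + 1) + q ^ n * (d' + 1) ≤ q ^ (n + 1) := by
      rw [pow_succ, ← mul_add]
      exact Nat.mul_le_mul_left _ (by omega)
    have h6 : k + k' + 1 < q ^ (n + 1) := by omega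
    obtain ⟨l, hl⟩ := Nat.exists_eq_add_of_lt h6
    have h7 := v_pp_mul (v := v) hx₁ (k := k) (l := k' + l + 1) (by omega)
    have h8 := v_pp_anti hx₁ hlt (show k' < k' + l + 1 by omega) (show k' + l + 1 < q ^ (n + 1) by omega)
    have hk0 := v_pp_pos (v := v) hx₁ (k := k) (by omega)
    rw [hvN] at h7
    have hk0' := v_pp_pos (v := v) hx₁ (k := k') (by omega)
    -- M P_k ≤ B, B P_k' ≤ κ² M
    have h9 : M * v (pp ζ k) * v (pp ζ k') ≤ v κ ^ 2 * M :=
      (mul_le_mul_of_nonneg_right hkB hk0'.le).trans hkB'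
    have h10 : v (pp ζ k) * v (pp ζ k') ≤ v κ ^ 2 := by
      by_contra! h11
      have := mul_lt_mul_of_pos_left h11 hMpos
      linarith
    rw [← h7] at h10
    have := mul_lt_mul_of_pos_left h8 hk0
    linarith
  -- telescoping sums
  have htel : ∀ y, ∑ t ∈ range q, D (y + t • p) = 0 := by
    intro y
    have h3 : ∀ t, D (y + t • p) = L (y + (t + 1) • p) - L (y + t • p) := by
      intro t
      simp only [hD]
      rw [succ_nsmul, add_assoc]
    rw [sum_congr rfl fun t _ => h3 t, sum_range_sub (fun t => L (y + t • p)) q]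
    simp [hqp]
  have hX : 0 ≤ D x0 := by
    by_contra! h3
    have := htel x0
    have h4 : ∑ t ∈ range q, D (x0 + t • p) < 0 :=
      sum_neg (fun t _ => lt_of_le_of_lt (hx0' _) h3) ⟨0, mem_range.mpr hp.pos⟩
    linarith
  have hY : 0 ≤ -D x1 := by
    by_contra! h3
    have := htel x0
    have h4 : 0 < ∑ t ∈ range q, D (x0 + t • p) :=
      sum_pos (fun t _ => lt_of_lt_of_le (by linarith) (hx1' _)) ⟨0, mem_range.mpr hp.pos⟩
    linarith
  have hs1 := sum_bound (q := q) (k := d + 1) (fun t => D (x0 + t • p)) (l := D x1) (u := D x0)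
    (fun t _ => hx1' _) (hx1' _) hcard
  rw [htel] at hs1
  have hs2 := sum_bound (q := q) (k := d' + 1) (fun t => -D (x1 + t • p)) (l := -D x0) (u := -D x1)
    (fun t _ => by linarith [hx0' (x1 + t • p)]) (by linarith [hx1' x0])
    (by
      refine hcard'.trans (card_le_card ?_)
      intro t
      rw [mem_filter, mem_filter]
      rintro ⟨h4, h5⟩
      exact ⟨h4, by rw [h5]⟩)
  rw [sum_neg_distrib, htel] at hs2
  obtain ⟨hX0, hY0⟩ := endgame hdd hX hY (by linarith) (by linarith)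
  have h3 := hx0' x
  have h4 := hx1' x
  have h5 : D x = 0 := by linarith
  simp only [hD] at h5
  rw [hLe, hLe, sub_eq_zero.mp h5]

end leaf

end ZU
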