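import Pool.Agent.Lib.MP_d0f9e0_co.U.Pg

/-!
The local uncertainty principle: a function with small Fourier transform has many values of maximal
absolute value in the cosets of the subgroup of order `q`.
-/

open Finset

namespace ZU

/-- The theorem of Lucas for a prime power. -/
theorem lucas_pow {q : ℕ} [Fact q.Prime] (a n k : ℕ) :
    (n.choose k : ℤ) ≡ (n % q ^ a).choose (k % q ^ a) * (n / q ^ a).choose (k / q ^ a) [ZMOD q] := by
  have hq : 0 < q := (Fact.out : q.Prime).pos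
  have h1 := Choose.choose_modEq_choose_mul_prod_range_choose (n := n) (k := k) (p := q) a
  have h2 := Choose.choose_modEq_choose_mul_prod_range_choose (n := n % q ^ a) (k := k % q ^ a)
    (p := q) a
  rw [Nat.div_eq_of_lt (Nat.mod_lt _ (pow_pos hq a)), Nat.div_eq_of_lt (Nat.mod_lt _ (pow_pos hq a))]
    at h2
  have e : ∀ x i, i ∈ range a → x % q ^ a / q ^ i % q = x / q ^ i % q := by
    intro x i hi
    rw [mem_range] at hi
    have ha : q ^ a = q ^ i * q ^ (a - i) := by rw [← pow_add]; congr 1; omega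
    rw [ha, Nat.mod_mul_right_div_self, Nat.mod_mod_of_dvd]
    exact dvd_pow_self _ (by omega)
  rw [prod_congr rfl fun i hi => by rw [e n i hi, e k i hi]] at h2
  simp only [Nat.choose_self, Nat.cast_one, one_mul] at h2
  refine h1.trans ?_
  rw [mul_comm]
  exact (Int.ModEq.mul_right _ h2.symm)

theorem alt_sum {z b : ℕ} (hz : z < b) :
    ∑ r ∈ range b, (-1 : ℤ) ^ r * (z.choose r : ℤ) = if z = 0 then 1 else 0 := by
  rw [← Int.alternating_sum_range_choose]
  refine (sum_subset (by intro x; simp; omega) ?_).symm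
  intro x _ hx
  rw [mem_range, not_lt] at hx
  rw [Nat.choose_eq_zero_of_lt (by omega)]
  simp

theorem lucas_sum {q : ℕ} [Fact q.Prime] (n z j : ℕ) :
    (q : ℤ) ∣ ∑ r ∈ range (q ^ n), (-1 : ℤ) ^ r * (z.choose (r + q ^ n * j) : ℤ) -
      if q ^ n ∣ z then ((z / q ^ n).choose j : ℤ) else 0 := by
  have hq : 0 < q := (Fact.out : q.Prime).pos
  have hb : 0 < q ^ n := pow_pos hq n
  have h1 : ∑ r ∈ range (q ^ n), (-1 : ℤ) ^ r * (z.choose (r + q ^ n * j) : ℤ) ≡
      ∑ r ∈ range (q ^ n), (-1 : ℤ) ^ r * (((z % q ^ n).choose r : ℤ) * ((z / q ^ n).choose j : ℤ))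
      [ZMOD q] := by
    have h2 : ∀ r ∈ range (q ^ n), (-1 : ℤ) ^ r * (z.choose (r + q ^ n * j) : ℤ) ≡
        (-1 : ℤ) ^ r * (((z % q ^ n).choose r : ℤ) * ((z / q ^ n).choose j : ℤ)) [ZMOD q] := by
      intro r hr
      rw [mem_range] at hr
      have := lucas_pow (q := q) n z (r + q ^ n * j)
      rw [Nat.add_mul_mod_self_left, Nat.mod_eq_of_lt hr, Nat.add_mul_div_left _ _ hb,
        Nat.div_eq_of_lt hr, zero_add] at this
      exact Int.ModEq.mul_left _ this
    rw [Int.modEq_iff_dvd, ← sum_sub_distrib]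
    exact dvd_sum fun r hr => (Int.modEq_iff_dvd.mp (h2 r hr))
  have h3 : ∑ r ∈ range (q ^ n), (-1 : ℤ) ^ r * (((z % q ^ n).choose r : ℤ) *
      ((z / q ^ n).choose j : ℤ)) = if q ^ n ∣ z then ((z / q ^ n).choose j : ℤ) else 0 := by
    simp_rw [← mul_assoc]
    rw [← sum_mul, alt_sum (Nat.mod_lt _ hb)]
    by_cases h : q ^ n ∣ z
    · rw [if_pos h, if_pos (Nat.mod_eq_zero_of_dvd h), one_mul]
    · rw [if_neg h, if_neg (fun h0 => h (Nat.dvd_of_mod_eq_zero h0)), zero_mul]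
  rw [h3] at h1
  exact (Int.modEq_iff_dvd.mp h1.symm)

section count

variable {K : Type*} [Field K] {v : AbsoluteValue K ℝ}

theorem mul_lt_of {x y : K} {M : ℝ} (hx : v x < M) (hy : v y ≤ 1) :
    v (x * y) < M := by
  rw [v.map_mul]
  calc v x * v y ≤ v x * 1 := mul_le_mul_of_nonneg_left hy (v.nonneg _)
    _ < M := by simpa using hx

theorem mul_lt_of' {x y : K} {M : ℝ} (hM : 0 < M) (hx : v x ≤ M) (hy : v y < 1) :
    v (x * y) < M := by
  rw [v.map_mul]
  calc v x * v y ≤ M * v y := mul_le_mul_of_nonneg_right hx (v.nonneg _)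
    _ < M * 1 := mul_lt_mul_of_pos_left hy hM
    _ = M := mul_one M

theorem choose_mul_sub (t j : ℕ) (s : K) : (t.choose j : K) * (t - s) =
    (t.choose (j + 1) : K) * (j + 1) + (t.choose j : K) * (j - s) := by
  rcases Nat.lt_or_ge t j with h | h
  · rw [Nat.choose_eq_zero_of_lt h, Nat.choose_eq_zero_of_lt (by omega)]
    simp
  · have h1 := Nat.choose_succ_right_eq t j
    have h2 := congrArg (Nat.cast (R := K)) h1
    push_cast [Nat.cast_sub h] at h2
    rw [h2]
    ring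

theorem poly_lt (hv : IsNonarchimedean v) {q : ℕ} (φ : ℕ → K) {M : ℝ} {c : ℕ}
    (h : ∀ j < c, v (∑ t ∈ range q, φ t * (t.choose j : K)) < M) (T : Finset ℕ) :
    ∀ j, j + T.card < c →
      v (∑ t ∈ range q, φ t * ((t.choose j : K) * ∏ s ∈ T, ((t : K) - s))) < M := by
  classical
  induction T using Finset.induction_on with
  | empty => intro j hj; simpa using h j (by simpa using hj)
  | insert s T hs ih =>
    intro j hj
    rw [card_insert_of_notMem hs] at hj
    have e : ∑ t ∈ range q, φ t * ((t.choose j : K) * ∏ s ∈ insert s T, ((t : K) - s)) =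
        (∑ t ∈ range q, φ t * ((t.choose (j + 1) : K) * ∏ s ∈ T, ((t : K) - s))) * ((j + 1 : ℕ) : K) +
        (∑ t ∈ range q, φ t * ((t.choose j : K) * ∏ s ∈ T, ((t : K) - s))) *
          (((j : ℤ) - (s : ℤ) : ℤ) : K) := by
      rw [sum_mul, sum_mul, ← sum_add_distrib]
      refine sum_congr rfl fun t _ => ?_
      rw [prod_insert hs]
      have := choose_mul_sub (K := K) t j (s : K)
      push_cast
      linear_combination (φ t * ∏ s ∈ T, ((t : K) - s)) * this
    rw [e]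
    exact add_lt' hv (mul_lt_of (ih (j + 1) (by omega)) (nat_le hv _))
      (mul_lt_of (ih j (by omega)) (int_le hv _))

theorem count (hv : IsNonarchimedean v) {q : ℕ} (hp : q.Prime) (hq : v (q : K) < 1) (φ : ℕ → K)
    {M : ℝ} {c : ℕ} (hM : 0 < M) (hφ : ∀ t < q, v (φ t) ≤ M) (h0 : v (φ 0) = M)
    (h : ∀ j < c, v (∑ t ∈ range q, φ t * (t.choose j : K)) < M) :
    c + 1 ≤ ((range q).filter fun t => v (φ t) = M).card := by
  classical
  by_contra! hc
  set S := (range q).filter fun t => v (φ t) = M with hS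
  have h0S : 0 ∈ S := by rw [hS, mem_filter, mem_range]; exact ⟨hp.pos, h0⟩
  have h1 := poly_lt hv φ h (S.erase 0) 0 (by
    have := card_pos.mpr ⟨0, h0S⟩
    rw [card_erase_of_mem h0S]
    omega)
  simp only [Nat.choose_zero_right, Nat.cast_one, one_mul] at h1
  rw [← add_sum_erase _ _ (show 0 ∈ range q from mem_range.mpr hp.pos)] at h1
  have h2 : v (∑ t ∈ (range q).erase 0, φ t * ∏ s ∈ S.erase 0, ((t : K) - s)) < M := by
    refine sum_lt hv _ _ hM fun t ht => ?_
    rw [mem_erase, mem_range] at ht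
    by_cases htS : t ∈ S
    · rw [prod_eq_zero (i := t) (mem_erase.mpr ⟨ht.1, htS⟩) (sub_self _)]
      simpa using hM
    · have h3 : v (φ t) < M := by
        refine lt_of_le_of_ne (hφ t ht.2) fun h4 => htS ?_
        rw [hS, mem_filter, mem_range]
        exact ⟨ht.2, h4⟩
      refine mul_lt_of h3 ?_
      have e : ∏ s ∈ S.erase 0, ((t : K) - s) = ((∏ s ∈ S.erase 0, ((t : ℤ) - s) : ℤ) : K) := by
        push_cast; rfl
      rw [e]
      exact int_le hv _
  have h3 : v (φ 0 * ∏ s ∈ S.erase 0, (((0 : ℕ) : K) - s)) < M := by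
    have := sub_lt' hv h1 h2
    rwa [add_sub_cancel_right] at this
  have h4 : v (∏ s ∈ S.erase 0, (((0 : ℕ) : K) - s)) = 1 := by
    have e : ∏ s ∈ S.erase 0, (((0 : ℕ) : K) - s) = ((∏ s ∈ S.erase 0, (-(s : ℤ)) : ℤ) : K) := by
      push_cast; simp
    rw [e]
    refine ndvd_eq hv hp hq fun hd => ?_
    rw [Prime.dvd_finsetProd_iff (Nat.prime_iff_prime_int.mp hp)] at hd
    obtain ⟨s, hs, hds⟩ := hd
    rw [mem_erase, hS, mem_filter, mem_range] at hs
    rw [dvd_neg, Int.natCast_dvd_natCast] at hds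
    exact absurd (Nat.le_of_dvd (Nat.pos_of_ne_zero hs.1) hds) (not_le.mpr hs.2.1)
  rw [v.map_mul, h0, h4, mul_one] at h3
  exact lt_irrefl _ h3

end count

section lu

variable {G K : Type*} [AddCommGroup G] [Fintype G] [Field K] {v : AbsoluteValue K ℝ}
  {q n m : ℕ} {γ x₁ : G}

theorem moment (hv : IsNonarchimedean v) (hp : q.Prime) (hq : v (q : K) < 1) (P : Pg G K)
    (hγ : addOrderOf γ = q ^ (n + 1)) (hG : Fintype.card G = m * q ^ (n + 1)) (hm : ¬ q ∣ m)
    (hx₁ : IsPrimitiveRoot (P.b γ x₁) (q ^ (n + 1))) {f : G → K} {M B : ℝ} (hM : 0 < M)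
    (hf : ∀ a, v (f a) ≤ M) (hB : ∀ x, v (P.ft f x) ≤ B) {k : ℕ} (hk : k < q ^ (n + 1))
    (hkB : B < M * v (pp (P.b γ x₁) k)) (a : G) :
    v (∑ z ∈ range (q ^ (n + 1)), f (a + z • γ) * (z.choose k : K)) < M := by
  have := Fact.mk hp
  have hN : q ^ (n + 1) ≠ 0 := pow_ne_zero _ hp.ne_zero
  have hB0 : 0 ≤ B := (v.nonneg _).trans (hB 0)
  have hT : v ((Pg.tor G m).card : K) = 1 := by
    have h1 := Pg.card_tor (G := G) (q := q) hm
    have h2 := ndvd_eq (K := K) hv hp hq (a := ((Pg.tor G m).card : ℤ)) (by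
      rw [Int.natCast_dvd_natCast]; exact h1)
    simpa using h2
  have hS : ∀ y, v (∑ z ∈ range (q ^ (n + 1)), f (a + z • γ) * P.b γ x₁ ^ (y * z)) ≤ B := by
    intro y
    have h1 := congrArg v (P.coset_sum hp hγ hG hm f a x₁ y)
    rw [v.map_mul, hT, one_mul] at h1
    rw [h1]
    refine sum_le hv _ _ hB0 fun x _ => ?_
    rw [v.map_mul, P.v_b, one_mul]
    exact hB _
  have hinj : Set.InjOn (fun j : ℕ => P.b γ x₁ ^ j) (range (k + 1) : Finset ℕ) := by
    intro i hi j hj hij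
    simp only [coe_range, Set.mem_Iio] at hi hj
    exact hx₁.pow_inj (by omega) (by omega) hij
  have h1 : ∑ z ∈ range (q ^ (n + 1)), f (a + z • γ) * gb (P.b γ x₁) z k =
      ∑ y ∈ range (k + 1), wt (P.b γ x₁) k y *
        ∑ z ∈ range (q ^ (n + 1)), f (a + z • γ) * P.b γ x₁ ^ (y * z) := by
    simp_rw [mul_sum]
    rw [sum_comm]
    refine sum_congr rfl fun z _ => ?_
    rw [gb_eq_sum z hinj, mul_sum]
    refine sum_congr rfl fun y _ => ?_
    ring
  have h2 : v (∑ z ∈ range (q ^ (n + 1)), f (a + z • γ) * gb (P.b γ x₁) z k) < M := by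
    rw [h1]
    refine sum_lt hv _ _ hM fun y hy => ?_
    rw [mem_range] at hy
    have h3 := v_wt_le hv hx₁ hk (show y ≤ k by omega)
    have h4 := v_pp_pos (v := v) hx₁ hk
    rw [v.map_mul]
    have h5 := hS y
    set S := v (∑ z ∈ range (q ^ (n + 1)), f (a + z • γ) * P.b γ x₁ ^ (y * z)) with hSdef
    have h6 : 0 ≤ v (wt (P.b γ x₁) k y) := v.nonneg _
    have h7 : 0 ≤ S := v.nonneg _
    have h8 : v (wt (P.b γ x₁) k y) * S * v (pp (P.b γ x₁) k) < M * v (pp (P.b γ x₁) k) := by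
      calc v (wt (P.b γ x₁) k y) * S * v (pp (P.b γ x₁) k) =
            (v (wt (P.b γ x₁) k y) * v (pp (P.b γ x₁) k)) * S := by ring
        _ ≤ 1 * S := mul_le_mul_of_nonneg_right h3 h7
        _ ≤ B := by simpa using h5
        _ < _ := hkB
    exact lt_of_mul_lt_mul_right h8 h4.le
  have h1' : ∀ j, v (1 - P.b γ x₁ ^ j) < 1 := v_one_sub_lt hv hp hq hx₁.pow_eq_one
  have e : ∑ z ∈ range (q ^ (n + 1)), f (a + z • γ) * (z.choose k : K) =
      ∑ z ∈ range (q ^ (n + 1)), f (a + z • γ) * gb (P.b γ x₁) z k -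
      ∑ z ∈ range (q ^ (n + 1)), f (a + z • γ) * (gb (P.b γ x₁) z k - (z.choose k : K)) := by
    rw [← sum_sub_distrib]
    refine sum_congr rfl fun z _ => ?_
    ring
  rw [e]
  refine sub_lt' hv h2 (sum_lt hv _ _ hM fun z _ => ?_)
  exact mul_lt_of' hM (hf _) (v_gb_sub hv hN hx₁.pow_eq_one h1' z k)

/-- Vanishing moments along the cosets of the subgroup of order `q`. -/
theorem coset_moment (hv : IsNonarchimedean v) (hp : q.Prime) (hq : v (q : K) < 1) (P : Pg G K)
    (hγ : addOrderOf γ = q ^ (n + 1)) (hG : Fintype.card G = m * q ^ (n + 1)) (hm : ¬ q ∣ m)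
    (hx₁ : IsPrimitiveRoot (P.b γ x₁) (q ^ (n + 1))) {f : G → K} {M B : ℝ} (hM : 0 < M)
    (hf : ∀ a, v (f a) ≤ M) (hB : ∀ x, v (P.ft f x) ≤ B) {c : ℕ} (hc : c ≤ q)
    (hcB : ∀ k < q ^ n * c, B < M * v (pp (P.b γ x₁) k)) (a : G) {j : ℕ} (hj : j < c) :
    v (∑ t ∈ range q, f (a + (q ^ n * t) • γ) * (t.choose j : K)) < M := by
  have := Fact.mk hp
  have hb : 0 < q ^ n := pow_pos hp.pos n
  have h1 : ∀ r < q ^ n,
      v (∑ z ∈ range (q ^ (n + 1)), f (a + z • γ) * (z.choose (r + q ^ n * j) : K)) < M := by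
    intro r hr
    have h2 : r + q ^ n * j < q ^ n * c := by
      calc r + q ^ n * j < q ^ n + q ^ n * j := by omega
        _ = q ^ n * (j + 1) := by ring
        _ ≤ q ^ n * c := Nat.mul_le_mul_left _ hj
    refine moment hv hp hq P hγ hG hm hx₁ hM hf hB ?_ (hcB _ h2) a
    calc r + q ^ n * j < q ^ n * c := h2
      _ ≤ q ^ n * q := Nat.mul_le_mul_left _ hc
      _ = q ^ (n + 1) := (pow_succ q n).symm
  have h2 : v (∑ z ∈ range (q ^ (n + 1)), f (a + z • γ) *
      ((∑ r ∈ range (q ^ n), (-1 : ℤ) ^ r * (z.choose (r + q ^ n * j) : ℤ) : ℤ) : K)) < M := by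
    have e : ∑ z ∈ range (q ^ (n + 1)), f (a + z • γ) *
        ((∑ r ∈ range (q ^ n), (-1 : ℤ) ^ r * (z.choose (r + q ^ n * j) : ℤ) : ℤ) : K) =
        ∑ r ∈ range (q ^ n), (∑ z ∈ range (q ^ (n + 1)), f (a + z • γ) *
          (z.choose (r + q ^ n * j) : K)) * (((-1 : ℤ) ^ r : ℤ) : K) := by
      simp_rw [sum_mul]
      rw [sum_comm]
      refine sum_congr rfl fun z _ => ?_
      push_cast
      rw [mul_sum]
      refine sum_congr rfl fun r _ => ?_
      ring
    rw [e]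
    refine sum_lt hv _ _ hM fun r hr => ?_
    exact mul_lt_of (h1 r (mem_range.mp hr)) (int_le hv _)
  have h3 : v (∑ z ∈ range (q ^ (n + 1)), f (a + z • γ) *
      ((if q ^ n ∣ z then ((z / q ^ n).choose j : ℤ) else 0 : ℤ) : K)) < M := by
    have e : ∑ z ∈ range (q ^ (n + 1)), f (a + z • γ) *
        ((if q ^ n ∣ z then ((z / q ^ n).choose j : ℤ) else 0 : ℤ) : K) =
        ∑ z ∈ range (q ^ (n + 1)), f (a + z • γ) *
          ((∑ r ∈ range (q ^ n), (-1 : ℤ) ^ r * (z.choose (r + q ^ n * j) : ℤ) : ℤ) : K) -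
        ∑ z ∈ range (q ^ (n + 1)), f (a + z • γ) *
          ((∑ r ∈ range (q ^ n), (-1 : ℤ) ^ r * (z.choose (r + q ^ n * j) : ℤ) -
            (if q ^ n ∣ z then ((z / q ^ n).choose j : ℤ) else 0) : ℤ) : K) := by
      rw [← sum_sub_distrib]
      refine sum_congr rfl fun z _ => ?_
      rw [← mul_sub, ← Int.cast_sub, sub_sub_cancel]
    rw [e]
    refine sub_lt' hv h2 (sum_lt hv _ _ hM fun z _ => ?_)
    exact mul_lt_of' hM (hf _) (dvd_lt hv hq (lucas_sum n z j))
  have e : ∑ z ∈ range (q ^ (n + 1)), f (a + z • γ) *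
      ((if q ^ n ∣ z then ((z / q ^ n).choose j : ℤ) else 0 : ℤ) : K) =
      ∑ t ∈ range q, f (a + (q ^ n * t) • γ) * (t.choose j : K) := by
    have e1 : ∀ z ∈ range (q ^ (n + 1)), f (a + z • γ) *
        ((if q ^ n ∣ z then ((z / q ^ n).choose j : ℤ) else 0 : ℤ) : K) =
        if q ^ n ∣ z then f (a + z • γ) * ((z / q ^ n).choose j : K) else 0 := by
      intro z _
      split_ifs <;> simp
    rw [sum_congr rfl e1, ← sum_filter]
    refine (sum_bij (fun t _ => q ^ n * t) ?_ ?_ ?_ ?_).symm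
    · intro t ht
      rw [mem_range] at ht
      rw [mem_filter, mem_range, pow_succ]
      exact ⟨Nat.mul_lt_mul_of_pos_left ht hb, dvd_mul_right _ _⟩
    · intro t _ t' _ h
      exact Nat.eq_of_mul_eq_mul_left hb h
    · intro z hz
      rw [mem_filter, mem_range, pow_succ] at hz
      obtain ⟨hz, t, rfl⟩ := hz
      exact ⟨t, mem_range.mpr (Nat.lt_of_mul_lt_mul_left hz), rfl⟩
    · intro t _
      rw [Nat.mul_div_cancel_left _ hb]
  rwa [e] at h3

/-- The local uncertainty principle. -/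
theorem lu (hv : IsNonarchimedean v) (hp : q.Prime) (hq : v (q : K) < 1) (P : Pg G K)
    (hγ : addOrderOf γ = q ^ (n + 1)) (hG : Fintype.card G = m * q ^ (n + 1)) (hm : ¬ q ∣ m)
    (hx₁ : IsPrimitiveRoot (P.b γ x₁) (q ^ (n + 1))) {f : G → K} {M B : ℝ} (hM : 0 < M)
    (hf : ∀ a, v (f a) ≤ M) (hB : ∀ x, v (P.ft f x) ≤ B) {c : ℕ} (hc : c ≤ q)
    (hcB : ∀ k < q ^ n * c, B < M * v (pp (P.b γ x₁) k)) {a : G} (ha : v (f a) = M) :
    c + 1 ≤ ((range q).filter fun t => v (f (a + (q ^ n * t) • γ)) = M).card :=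
  count hv hp hq (fun t => f (a + (q ^ n * t) • γ)) hM (fun _ _ => hf _) (by simpa using ha)
    fun _ hj => coset_moment hv hp hq P hγ hG hm hx₁ hM hf hB hc hcB a hj

end lu

end ZU
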