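import Pool.Agent.Lib.MP_d0f9e0_co.U.Gv

/-!
Symmetric nondegenerate bicharacters of a finite commutative group with values in a field, the Fourier
transform, and its restriction to the cosets of a cyclic Sylow subgroup.
-/

open Finset

namespace ZU

/-- A symmetric nondegenerate bicharacter with values in `K`. -/
structure Pg (G K : Type*) [AddCommGroup G] [Field K] where
  b : G → G → K
  zero : ∀ y, b 0 y = 1
  add : ∀ x y z, b (x + y) z = b x z * b y z
  sym : ∀ x y, b x y = b y x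
  nd : ∀ x, (∀ y, b x y = 1) → x = 0

namespace Pg

variable {G K : Type*} [AddCommGroup G] [Field K] (P : Pg G K)

theorem zero' (x : G) : P.b x 0 = 1 := by rw [P.sym, P.zero]

theorem add' (x y z : G) : P.b x (y + z) = P.b x y * P.b x z := by
  rw [P.sym, P.add, P.sym y, P.sym z]

theorem nsmul (n : ℕ) (x y : G) : P.b (n • x) y = P.b x y ^ n := by
  induction n with
  | zero => simp [P.zero]
  | succ n ih => rw [succ_nsmul, P.add, ih, pow_succ]

theorem nsmul' (n : ℕ) (x y : G) : P.b x (n • y) = P.b x y ^ n := by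
  rw [P.sym, P.nsmul, P.sym]

theorem neg_mul (x y : G) : P.b (-x) y * P.b x y = 1 := by
  rw [← P.add, neg_add_cancel, P.zero]

theorem ne_zero (x y : G) : P.b x y ≠ 0 := by
  intro h
  have := P.neg_mul x y
  rw [h, mul_zero] at this
  exact zero_ne_one this

theorem neg (x y : G) : P.b (-x) y = (P.b x y)⁻¹ := eq_inv_of_mul_eq_one_left (P.neg_mul x y)

theorem sub (x y z : G) : P.b (x - y) z = P.b x z * (P.b y z)⁻¹ := by
  rw [sub_eq_add_neg, P.add, P.neg]

variable [Fintype G]

/-- The Fourier transform. -/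
def ft (f : G → K) (x : G) : K := ∑ a, f a * P.b a x

theorem pow_card (x y : G) : P.b x y ^ Fintype.card G = 1 := by
  rw [← P.nsmul, card_nsmul_eq_zero, P.zero]

theorem v_b {v : AbsoluteValue K ℝ} (x y : G) : v (P.b x y) = 1 :=
  v_root Fintype.card_ne_zero (P.pow_card x y)

/-- Orthogonality. -/
theorem sum_b [DecidableEq G] (a : G) : ∑ x, P.b a x = if a = 0 then (Fintype.card G : K) else 0 := by
  split_ifs with h
  · subst h; simp [P.zero]
  · have : ∃ y, P.b a y ≠ 1 := by
      by_contra! h1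
      exact h (P.nd a h1)
    obtain ⟨y, hy⟩ := this
    have h1 : ∑ x, P.b a x = P.b a y * ∑ x, P.b a x := by
      rw [mul_sum, ← Equiv.sum_comp (Equiv.addLeft y)]
      refine sum_congr rfl fun x _ => ?_
      simp [P.add']
    have h2 : (P.b a y - 1) * ∑ x, P.b a x = 0 := by
      rw [sub_mul, one_mul, ← h1, sub_self]
    exact (mul_eq_zero.mp h2).resolve_left (sub_ne_zero.mpr hy)

theorem ft_ft (f : G → K) (y : G) : P.ft (P.ft f) y = Fintype.card G * f (-y) := by
  classical
  unfold ft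
  have h1 : ∀ x, (∑ a, f a * P.b a x) * P.b x y = ∑ a, f a * P.b (a + y) x := by
    intro x
    rw [sum_mul]
    refine sum_congr rfl fun a _ => ?_
    rw [P.add, P.sym x y, mul_assoc]
  rw [sum_congr rfl fun x _ => h1 x, sum_comm]
  have h2 : ∀ a, ∑ x, f a * P.b (a + y) x = if a = -y then (Fintype.card G : K) * f a else 0 := by
    intro a
    rw [← mul_sum, P.sum_b]
    by_cases h : a = -y
    · rw [if_pos h, if_pos (by rw [h, neg_add_cancel]), mul_comm]
    · rw [if_neg h, if_neg (by intro h0; exact h (eq_neg_of_add_eq_zero_left h0)), mul_zero]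
  rw [sum_congr rfl fun a _ => h2 a]
  simp

section cyc

variable {q n m : ℕ} {γ : G}

/-- The elements killed by `m`. -/
noncomputable def tor (G : Type*) [AddCommGroup G] [Fintype G] (m : ℕ) : Finset G := by
  classical exact univ.filter fun x => m • x = 0

theorem mem_tor {x : G} : x ∈ tor G m ↔ m • x = 0 := by simp [tor]

theorem card_tor [Fact q.Prime] (hm : ¬ q ∣ m) : ¬ q ∣ (tor G m).card := by
  classical
  intro h
  have e : (tor G m).card = Fintype.card (nsmulAddMonoidHom (α := G) m).ker := by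
    rw [Fintype.card_subtype]
    congr 1
    ext x
    simp [tor, AddMonoidHom.mem_ker]
  rw [e] at h
  obtain ⟨x, hx⟩ := exists_prime_addOrderOf_dvd_card q h
  have h1 : m • x = 0 := by
    have := x.2
    rw [AddMonoidHom.mem_ker] at this
    exact Subtype.ext this
  have h2 := addOrderOf_dvd_of_nsmul_eq_zero h1
  rw [hx] at h2
  exact hm h2

theorem mem_gam (hp : q.Prime) (hγ : addOrderOf γ = q ^ (n + 1))
    (hG : Fintype.card G = m * q ^ (n + 1)) (hm : ¬ q ∣ m) {h : G}
    (hN : (q ^ (n + 1)) • h = 0) : h ∈ AddSubgroup.zmultiples γ := by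
  have hidx : (AddSubgroup.zmultiples γ).index = m := by
    have h1 := (AddSubgroup.zmultiples γ).index_mul_card
    rw [Nat.card_zmultiples, hγ, Nat.card_eq_fintype_card, hG] at h1
    exact Nat.eq_of_mul_eq_mul_right (pow_pos hp.pos _) h1
  have h2 : m • h ∈ AddSubgroup.zmultiples γ := by
    rw [← hidx]
    exact AddSubgroup.nsmul_index_mem _ _
  have hcop : IsCoprime (m : ℤ) ((q ^ (n + 1) : ℕ) : ℤ) := by
    rw [Nat.isCoprime_iff_coprime]
    exact ((Nat.Prime.coprime_iff_not_dvd hp).mpr hm).symm.pow_right _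
  obtain ⟨s, t, hst⟩ := hcop
  have h3 : h = s • (m • h) + t • ((q ^ (n + 1)) • h) := by
    have : (s * (m : ℤ) + t * ((q ^ (n + 1) : ℕ) : ℤ)) • h = h := by rw [hst, one_smul]
    rw [add_smul, mul_smul, mul_smul, natCast_zsmul, natCast_zsmul] at this
    exact this.symm
  rw [h3, hN, smul_zero, add_zero]
  exact AddSubgroup.zsmul_mem _ h2 s

theorem b_tor (hp : q.Prime) (hγ : addOrderOf γ = q ^ (n + 1)) (hm : ¬ q ∣ m) (z : ℕ) {x : G}
    (hx : x ∈ tor G m) : P.b (z • γ) x = 1 := by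
  rw [mem_tor] at hx
  have h1 : P.b (z • γ) x ^ m = 1 := by rw [← P.nsmul', hx, P.zero']
  have h2 : P.b (z • γ) x ^ (q ^ (n + 1)) = 1 := by
    rw [← P.nsmul, smul_comm, ← hγ, addOrderOf_nsmul_eq_zero, smul_zero, P.zero]
  have h3 := Nat.dvd_gcd (orderOf_dvd_of_pow_eq_one h1) (orderOf_dvd_of_pow_eq_one h2)
  have h4 : Nat.gcd m (q ^ (n + 1)) = 1 :=
    ((Nat.Prime.coprime_iff_not_dvd hp).mpr hm).symm.pow_right _
  rw [h4, Nat.dvd_one, orderOf_eq_one_iff] at h3
  exact h3

theorem sum_tor (hp : q.Prime) (hγ : addOrderOf γ = q ^ (n + 1))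
    (hG : Fintype.card G = m * q ^ (n + 1)) (hm : ¬ q ∣ m) {h : G}
    (hh : h ∉ AddSubgroup.zmultiples γ) : ∑ x ∈ tor G m, P.b h x = 0 := by
  classical
  have h1 : ∃ y ∈ tor G m, P.b h y ≠ 1 := by
    by_contra! h2
    refine hh (mem_gam hp hγ hG hm (P.nd _ fun y => ?_))
    rw [P.nsmul, ← P.nsmul']
    refine h2 _ ?_
    rw [mem_tor, ← mul_smul, ← hG, card_nsmul_eq_zero]
  obtain ⟨y, hy, hy1⟩ := h1
  have h3 : ∑ x ∈ tor G m, P.b h x = P.b h y * ∑ x ∈ tor G m, P.b h x := by
    rw [mul_sum]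
    refine (sum_bij (fun x _ => y + x) ?_ ?_ ?_ ?_).symm
    · intro x hx
      rw [mem_tor] at hx hy ⊢
      rw [smul_add, hx, hy, add_zero]
    · intro x _ x' _ hxx
      exact add_left_cancel hxx
    · intro x hx
      refine ⟨x - y, ?_, by abel⟩
      rw [mem_tor] at hx hy ⊢
      rw [smul_sub, hx, hy, sub_zero]
    · intro x _
      rw [P.add']
  have h2 : (P.b h y - 1) * ∑ x ∈ tor G m, P.b h x = 0 := by
    rw [sub_mul, one_mul, ← h3, sub_self]
  exact (mul_eq_zero.mp h2).resolve_left (sub_ne_zero.mpr hy1)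

omit [Fintype G] in
/-- A dual element. -/
theorem exists_dual (hp : q.Prime) (hγ : addOrderOf γ = q ^ (n + 1)) :
    ∃ x : G, IsPrimitiveRoot (P.b γ x) (q ^ (n + 1)) := by
  have := Fact.mk hp
  have h0 : (q ^ n) • γ ≠ 0 := by
    intro h0
    have := addOrderOf_dvd_of_nsmul_eq_zero h0
    rw [hγ] at this
    have := (Nat.pow_dvd_pow_iff_le_right hp.one_lt).mp this
    omega
  have h1 : ∃ x, P.b ((q ^ n) • γ) x ≠ 1 := by
    by_contra! h2
    exact h0 (P.nd _ h2)
  obtain ⟨x, hx⟩ := h1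
  refine ⟨x, ?_⟩
  rw [P.nsmul] at hx
  have h2 : P.b γ x ^ q ^ (n + 1) = 1 := by
    rw [← P.nsmul, ← hγ, addOrderOf_nsmul_eq_zero, P.zero]
  have h3 := orderOf_eq_prime_pow hx h2
  rw [← h3]
  exact IsPrimitiveRoot.orderOf _

/-- The Fourier coefficients along the cosets of the cyclic Sylow subgroup. -/
theorem coset_sum (hp : q.Prime) (hγ : addOrderOf γ = q ^ (n + 1))
    (hG : Fintype.card G = m * q ^ (n + 1)) (hm : ¬ q ∣ m) (f : G → K) (a x₁ : G) (y : ℕ) :
    ((tor G m).card : K) * ∑ z ∈ range (q ^ (n + 1)), f (a + z • γ) * P.b γ x₁ ^ (y * z) =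
      ∑ x ∈ tor G m, P.b (-a) (y • x₁ + x) * P.ft f (y • x₁ + x) := by
  classical
  have h1 : ∀ x, P.b (-a) (y • x₁ + x) * P.ft f (y • x₁ + x) =
      ∑ g, f g * P.b (g - a) (y • x₁) * P.b (g - a) x := by
    intro x
    rw [ft, mul_sum]
    refine sum_congr rfl fun g _ => ?_
    rw [P.neg, P.sub, P.sub, P.add', P.add', mul_inv]
    ring
  rw [sum_congr rfl fun x _ => h1 x, sum_comm]
  have h2 : ∀ g, ∑ x ∈ tor G m, f g * P.b (g - a) (y • x₁) * P.b (g - a) x =
      if g ∈ (range (q ^ (n + 1))).image (fun z => a + z • γ) then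
        ((tor G m).card : K) * (f g * P.b (g - a) (y • x₁)) else 0 := by
    intro g
    rw [← mul_sum]
    split_ifs with h
    · rw [mem_image] at h
      obtain ⟨z, _, rfl⟩ := h
      rw [add_sub_cancel_left, sum_congr rfl fun x hx => P.b_tor hp hγ hm z hx]
      rw [sum_const, nsmul_eq_mul, mul_one, mul_comm]
    · rw [P.sum_tor hp hγ hG hm, mul_zero]
      intro h3
      apply h
      rw [mem_zmultiples_iff_mem_range_addOrderOf, hγ, mem_image] at h3
      obtain ⟨z, hz, hz1⟩ := h3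
      rw [mem_image]
      exact ⟨z, hz, by rw [hz1]; abel⟩
  rw [sum_congr rfl fun g _ => h2 g, sum_ite_mem, univ_inter, sum_image]
  · rw [mul_sum]
    refine sum_congr rfl fun z _ => ?_
    rw [add_sub_cancel_left, P.nsmul, P.nsmul', ← pow_mul]
  · intro z hz z' hz' h
    simp only [coe_range, Set.mem_Iio] at hz hz'
    rw [← hγ] at hz hz'
    exact nsmul_injOn_Iio_addOrderOf hz hz' (add_left_cancel h)

end cyc

end Pg

end ZU
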